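import Pool.Agent.Lib.MP_86bf3a_co.Core

/-!
# The closure lemma
-/

set_option linter.unusedSectionVars false
set_option linter.unusedVariables false

namespace ProperArb

variable {V C : Type*} [DecidableEq V] [DecidableEq C] {p : C → V → V}

/-- `Z` carries a proper arborescence with root `v`, with all arcs coloured from `W` or in `H`,
such that some colour `j` of `W` enters `v` from outside `Z` and is not used at `v`. -/
def Good (p : C → V → V) (Z : Finset V) (W : Finset C) (H : Finset (V × C)) : Prop :=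
  ∃ E v j, IsArb p E Z v ∧ Proper p E ∧ Allowed W H E ∧ j ∈ W ∧ p j v ∉ Z ∧ ¬ At p E v j

/-- The arcs of `F` with head outside `B`. -/
def outArcs (F : Finset (V × C)) (B : Finset V) : Finset (V × C) := F.filter (fun a => a.1 ∉ B)

/-- The colours of `W` that are not used by `outArcs F B`. -/
def WB (W : Finset C) (F : Finset (V × C)) (B : Finset V) : Finset C :=
  W \ (outArcs F B).image Prod.snd

lemma mem_outArcs {F : Finset (V × C)} {B : Finset V} {y : V} {i : C} :
    (y, i) ∈ outArcs F B ↔ (y, i) ∈ F ∧ y ∉ B := by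
  simp [outArcs]

lemma mem_WB {W : Finset C} {F : Finset (V × C)} {B : Finset V} {j : C} :
    j ∈ WB W F B ↔ j ∈ W ∧ ∀ y, (y, j) ∈ F → y ∈ B := by
  unfold WB
  rw [Finset.mem_sdiff, Finset.mem_image]
  constructor
  · rintro ⟨h1, h2⟩
    refine ⟨h1, fun y hy => ?_⟩
    by_contra hyB
    exact h2 ⟨(y, j), mem_outArcs.mpr ⟨hy, hyB⟩, rfl⟩
  · rintro ⟨h1, h2⟩
    refine ⟨h1, ?_⟩
    rintro ⟨⟨y, i⟩, h3, h4⟩
    simp only at h4
    subst h4
    exact (mem_outArcs.mp h3).2 (h2 y (mem_outArcs.mp h3).1)

/-- The invariant of the closure process. -/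
structure Inv (p : C → V → V) (F : Finset (V × C)) (z : V) (S : Finset V) (W G₀ : Finset C)
    (B : Finset V) : Prop where
  sub : B ⊆ S
  root : z ∈ B
  up : ∀ y i, (y, i) ∈ F → y ∈ B → p i y ∈ B
  reach : ∀ y ∈ B, ∃ E, IsArb p E B y ∧ Proper p E ∧ Allowed (WB W F B ∩ G₀) F E

section
variable {F : Finset (V × C)} {z : V} {S : Finset V} {W G₀ : Finset C} {B : Finset V}

lemma card_WB (hF : IsArb p F S z) (hcard : S.card + 1 ≤ W.card) (hB : B ⊆ S) (hz : z ∈ B)
    (hup : ∀ y i, (y, i) ∈ F → y ∈ B → p i y ∈ B) : B.card + 1 ≤ (WB W F B).card := by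
  have h1 := (hF.restrict hB hz hup).card
  have h2 := hF.card
  have h3 := Finset.card_filter_add_card_filter_not (s := F) (fun a => a.1 ∈ B)
  have h4 : ((outArcs F B).image Prod.snd).card ≤ (outArcs F B).card := Finset.card_image_le
  have h5 := Finset.le_card_sdiff ((outArcs F B).image Prod.snd) W
  unfold WB
  unfold outArcs at *
  omega

/-- An arborescence on the upper set `B` extends by the arcs of `F` outside `B`. -/
lemma extend (hF : IsArb p F S z) (hP : Proper p F) (hB : B ⊆ S) (hz : z ∈ B) {E : Finset (V × C)}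
    {v : V} (hE : IsArb p E B v) (hEP : Proper p E) (hEA : Allowed (WB W F B) F E) :
    IsArb p (E ∪ outArcs F B) S v ∧ Proper p (E ∪ outArcs F B) ∧
      Allowed W F (E ∪ outArcs F B) := by
  refine ⟨hF.subst hB hz hE, subst_proper hP hE hEP ?_, ?_⟩
  · intro y i hy
    rcases hEA hy with h | h
    · exact Or.inr (fun y' hy' => (mem_WB.mp h).2 y' hy')
    · exact Or.inl h
  · intro y i hy
    rcases Finset.mem_union.mp hy with hy | hy
    · rcases hEA hy with h | h
      · exact Or.inl (mem_WB.mp h).1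
      · exact Or.inr h
    · exact Or.inr (mem_outArcs.mp hy).1

lemma Allowed.mono {W W' : Finset C} {H E : Finset (V × C)} (h : Allowed W H E) (hs : W ⊆ W') :
    Allowed W' H E := fun _ _ he => (h he).imp (fun h => hs h) id

lemma inv_sub (hF : IsArb p F S z) (hP : Proper p F)
    (hcrit : ∀ j ∈ W, j ∉ G₀ → ∃ s, ∀ E v, IsArb p E S v → Proper p E → Allowed W F E → At p E s j)
    (h : Inv p F z S W G₀ B) : WB W F B ⊆ G₀ := by
  intro j hj
  by_contra hjG
  obtain ⟨hjW, hjB⟩ := mem_WB.mp hj
  obtain ⟨s, hs⟩ := hcrit j hjW hjG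
  obtain ⟨b', hb'F, hb's⟩ := hs F z hF hP (fun y i hy => Or.inr hy)
  have hb'B := hjB b' hb'F
  obtain ⟨E, hE, hEP, hEA⟩ := h.reach b' hb'B
  obtain ⟨h1, h2, h3⟩ := extend hF hP h.sub h.root hE hEP (hEA.mono Finset.inter_subset_left)
  obtain ⟨y, hy, hys⟩ := hs _ _ h1 h2 h3
  have hyF : (y, j) ∈ F := by
    rcases Finset.mem_union.mp hy with hy | hy
    · rcases hEA hy with h' | h'
      · exact absurd (Finset.mem_inter.mp h').2 hjG
      · exact h'
    · exact (mem_outArcs.mp hy).1
  have := At.unique hP hb'F hb's hyF hys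
  subst this
  exact h1.head_ne hy rfl

/-- The closure lemma. -/
theorem closure (hF : IsArb p F S z) (hP : Proper p F) (hcard : S.card + 1 ≤ W.card)
    (hcrit : ∀ j ∈ W, j ∉ G₀ → ∃ s, ∀ E v, IsArb p E S v → Proper p E → Allowed W F E → At p E s j)
    (hThm : ∀ B W' E b, B ⊂ S → W' ⊆ W → W' ⊆ G₀ → B.card + 1 ≤ W'.card → IsArb p E B b →
      Proper p E → Good p B W' E) :
    Good p S W F ∨
      (W ⊆ G₀ ∧ ∀ y ∈ S, ∃ E, IsArb p E S y ∧ Proper p E ∧ Allowed (W ∩ G₀) F E) := by
  classical
  by_cases hgood : Good p S W F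
  · exact Or.inl hgood
  right
  let U : Finset (Finset V) := S.powerset.filter (fun B => Inv p F z S W G₀ B)
  have hU : U.Nonempty := by
    refine ⟨{z}, Finset.mem_filter.mpr ⟨?_, ?_, ?_, ?_, ?_⟩⟩
    · rw [Finset.mem_powerset, Finset.singleton_subset_iff]; exact hF.root_mem
    · rw [Finset.singleton_subset_iff]; exact hF.root_mem
    · simp
    · intro y i hy hyz
      exact absurd (Finset.mem_singleton.mp hyz) (hF.head_ne hy)
    · intro y hy
      rw [Finset.mem_singleton] at hy
      subst hy
      exact ⟨∅, isArb_single _, proper_empty, by intro y i h; simp at h⟩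
  obtain ⟨B, hBU, hmax⟩ := Finset.exists_max_image U Finset.card hU
  obtain ⟨-, hB⟩ := Finset.mem_filter.mp hBU
  have hsub := inv_sub hF hP hcrit hB
  by_cases hBS : B = S
  · subst hBS
    have hWB : WB W F B = W := by
      ext j
      rw [mem_WB]
      exact ⟨fun h => h.1, fun h => ⟨h, fun y hy => hF.head_mem hy⟩⟩
    rw [hWB] at hsub
    refine ⟨hsub, fun y hy => ?_⟩
    obtain ⟨E, h1, h2, h3⟩ := hB.reach y hy
    rw [hWB] at h3
    exact ⟨E, h1, h2, h3⟩
  exfalso
  have hBss : B ⊂ S := Finset.ssubset_iff_subset_ne.mpr ⟨hB.sub, hBS⟩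
  obtain ⟨E', v, j, hE', hE'P, hE'A, hjW, hjB, hjv⟩ := hThm B (WB W F B)
    (F.filter (fun a => a.1 ∈ B)) z hBss Finset.sdiff_subset hsub
    (card_WB hF hcard hB.sub hB.root hB.up) (hF.restrict hB.sub hB.root hB.up)
    (hP.mono (Finset.filter_subset _ _))
  have hE'A' : Allowed (WB W F B) F E' := fun y i hy => (hE'A hy).imp id
    (fun h => (Finset.mem_filter.mp h).1)
  have hjout : ∀ y, (y, j) ∈ F → y ∈ B := (mem_WB.mp hjW).2
  by_cases hx : p j v ∈ S
  swap
  · apply hgood
    obtain ⟨h1, h2, h3⟩ := extend hF hP hB.sub hB.root hE' hE'P hE'A'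
    refine ⟨_, v, j, h1, h2, h3, (mem_WB.mp hjW).1, hx, ?_⟩
    rintro ⟨y, hy, hyv⟩
    rcases Finset.mem_union.mp hy with hy | hy
    · exact hjv ⟨y, hy, hyv⟩
    · exact (mem_outArcs.mp hy).2 (hjout y (mem_outArcs.mp hy).1)
  set x := p j v with hxdef
  -- the smallest upper set containing `B` and `x`
  let U2 : Finset (Finset V) := S.powerset.filter
    (fun D => B ⊆ D ∧ x ∈ D ∧ ∀ y i, (y, i) ∈ F → y ∈ D → p i y ∈ D)
  have hU2 : U2.Nonempty :=
    ⟨S, Finset.mem_filter.mpr ⟨Finset.mem_powerset_self _, hB.sub, hx,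
      fun y i hy _ => hF.tail_mem hy⟩⟩
  obtain ⟨B', hB'U, hmin⟩ := Finset.exists_min_image U2 Finset.card hU2
  obtain ⟨hB'S, hBB', hxB', hB'up⟩ := Finset.mem_filter.mp hB'U
  rw [Finset.mem_powerset] at hB'S
  have hWmono : WB W F B ⊆ WB W F B' := by
    intro i hi
    rw [mem_WB] at hi ⊢
    exact ⟨hi.1, fun y hy => hBB' (hi.2 y hy)⟩
  have hWmono' : WB W F B ⊆ WB W F B' ∩ G₀ := Finset.subset_inter hWmono hsub
  have hlt : B.card < B'.card := by
    apply Finset.card_lt_card
    refine Finset.ssubset_iff_subset_ne.mpr ⟨hBB', ?_⟩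
    rintro rfl
    exact hjB hxB'
  have hInv : Inv p F z S W G₀ B' := by
    refine ⟨hB'S, hBB' hB.root, hB'up, ?_⟩
    intro y hy
    by_cases hyB : y ∈ B
    · -- old vertex
      obtain ⟨E, h1, h2, h3⟩ := hB.reach y hyB
      have hFr := hF.restrict hB'S (hBB' hB.root) hB'up
      refine ⟨_, hFr.subst hBB' hB.root h1,
        subst_proper (hP.mono (Finset.filter_subset _ _)) h1 h2 ?_, ?_⟩
      · intro w i hw
        rcases h3 hw with h | h
        · right
          intro y' hy'
          exact (mem_WB.mp (Finset.mem_inter.mp h).1).2 y' (Finset.mem_filter.mp hy').1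
        · left
          exact Finset.mem_filter.mpr ⟨h, hBB' (h1.head_mem hw)⟩
      · intro w i hw
        rcases Finset.mem_union.mp hw with hw | hw
        · rcases h3 hw with h | h
          · left
            exact Finset.mem_inter.mpr ⟨hWmono (Finset.mem_inter.mp h).1, (Finset.mem_inter.mp h).2⟩
          · exact Or.inr h
        · exact Or.inr (Finset.mem_filter.mp (Finset.mem_filter.mp hw).1).1
    · -- new vertex
      have hyz : y ≠ z := fun h => hyB (h ▸ hB.root)
      obtain ⟨R, Q, ER, EQ, c, hdis, hunion, hER, hEQ, hcR, hFeq⟩ := hF.cut (hB'S hy) hyz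
      have hdis' := Finset.disjoint_left.mp hdis
      have hERF : ER ⊆ F := by
        rw [hFeq]; exact (Finset.subset_union_left).trans (Finset.subset_insert _ _)
      have hEQF : EQ ⊆ F := by
        rw [hFeq]; exact (Finset.subset_union_right).trans (Finset.subset_insert _ _)
      have hRS : R ⊆ S := hunion ▸ Finset.subset_union_left
      have hQS : Q ⊆ S := hunion ▸ Finset.subset_union_right
      have hRup : ∀ w i, (w, i) ∈ F → w ∈ R → p i w ∈ R := by
        intro w i hw hwR
        rw [hFeq, Finset.mem_insert, Finset.mem_union] at hw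
        rcases hw with hw | hw | hw
        · rw [(Prod.mk.inj hw).1] at hwR
          exact absurd hEQ.root_mem (hdis' hwR)
        · exact hER.tail_mem hw
        · exact absurd (hEQ.head_mem hw) (hdis' hwR)
      -- `B` does not meet `Q`
      have hBQ : ∀ w ∈ B, w ∉ Q := by
        intro w hwB hwQ
        obtain ⟨w', hw', i, hi, hp⟩ := hEQ.enter (B ∩ Q) Finset.inter_subset_right
          ⟨w, Finset.mem_inter.mpr ⟨hwB, hwQ⟩⟩ (fun h => hyB (Finset.mem_inter.mp h).1)
        exact hp (Finset.mem_inter.mpr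
          ⟨hB.up w' i (hEQF hi) (Finset.mem_inter.mp hw').1, hEQ.tail_mem hi⟩)
      have hBR : B ⊆ R := by
        intro w hw
        have := hB.sub hw
        rw [← hunion, Finset.mem_union] at this
        exact this.resolve_right (hBQ w hw)
      -- `x` is in `Q`
      have hxQ : x ∈ Q := by
        by_contra hxQ
        have hxR : x ∈ R := by
          have := hx
          rw [← hunion, Finset.mem_union] at this
          exact this.resolve_right hxQ
        have hmem : B' ∩ R ∈ U2 := by
          refine Finset.mem_filter.mpr ⟨?_, ?_, ?_, ?_⟩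
          · rw [Finset.mem_powerset]
            exact Finset.inter_subset_left.trans hB'S
          · exact Finset.subset_inter hBB' hBR
          · exact Finset.mem_inter.mpr ⟨hxB', hxR⟩
          · intro w i hw hwD
            exact Finset.mem_inter.mpr ⟨hB'up w i hw (Finset.mem_inter.mp hwD).1,
              hRup w i hw (Finset.mem_inter.mp hwD).2⟩
        have h1 := hmin _ hmem
        have h2 : (B' ∩ R).card < B'.card := by
          apply Finset.card_lt_card
          refine Finset.ssubset_iff_subset_ne.mpr ⟨Finset.inter_subset_left, fun heq => ?_⟩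
          rw [← heq] at hy
          exact hdis' (Finset.mem_inter.mp hy).2 hEQ.root_mem
        omega
      -- the part above
      have hyR : y ∉ R := fun h => hdis' h hEQ.root_mem
      have hFR : IsArb p (F.filter (fun a => a.1 ∈ B' ∩ R)) (B' ∩ R) z :=
        hF.restrict (Finset.inter_subset_left.trans hB'S)
          (Finset.mem_inter.mpr ⟨hBB' hB.root, hBR hB.root⟩)
          (fun w i hw hwD => Finset.mem_inter.mpr ⟨hB'up w i hw (Finset.mem_inter.mp hwD).1,
              hRup w i hw (Finset.mem_inter.mp hwD).2⟩)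
      have hBB1 : B ⊆ B' ∩ R := Finset.subset_inter hBB' hBR
      have hE1 := hFR.subst hBB1 hB.root hE'
      have hE1P : Proper p (E' ∪ (F.filter (fun a => a.1 ∈ B' ∩ R)).filter (fun a => a.1 ∉ B)) := by
        refine subst_proper (hP.mono (Finset.filter_subset _ _)) hE' hE'P ?_
        intro w i hw
        rcases hE'A' hw with h | h
        · right
          intro y' hy'
          exact (mem_WB.mp h).2 y' (Finset.mem_filter.mp hy').1
        · left
          exact Finset.mem_filter.mpr ⟨h, hBB1 (hE'.head_mem hw)⟩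
      -- the part below
      have hE2 : IsArb p (EQ.filter (fun a => a.1 ∈ B' ∩ Q)) (B' ∩ Q) y :=
        hEQ.restrict Finset.inter_subset_right (Finset.mem_inter.mpr ⟨hy, hEQ.root_mem⟩)
          (fun w i hw hwD => Finset.mem_inter.mpr
            ⟨hB'up w i (hEQF hw) (Finset.mem_inter.mp hwD).1, hEQ.tail_mem hw⟩)
      have hdis2 : Disjoint (B' ∩ Q) (B' ∩ R) :=
        Finset.disjoint_of_subset_left Finset.inter_subset_right
          (Finset.disjoint_of_subset_right Finset.inter_subset_right hdis.symm)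
      have hunion2 : (B' ∩ Q) ∪ (B' ∩ R) = B' := by
        rw [← Finset.inter_union_distrib_left, Finset.union_comm Q R, hunion,
          Finset.inter_eq_left.mpr hB'S]
      have hxin : p j v ∈ B' ∩ Q := Finset.mem_inter.mpr ⟨hxB', hxQ⟩
      have n1 : ¬ At p (EQ.filter (fun a => a.1 ∈ B' ∩ Q)) (p j v) j := by
        apply not_at_of_unused
        intro w hw
        have hwF := hEQF (Finset.mem_filter.mp hw).1
        exact hBQ w (hjout w hwF) (Finset.mem_inter.mp (Finset.mem_filter.mp hw).2).2
      have n2 : ¬ At p (E' ∪ (F.filter (fun a => a.1 ∈ B' ∩ R)).filter (fun a => a.1 ∉ B)) v j := by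
        rintro ⟨w, hw, hwv⟩
        rcases Finset.mem_union.mp hw with hw | hw
        · exact hjv ⟨w, hw, hwv⟩
        · exact (Finset.mem_filter.mp hw).2
            (hjout w (Finset.mem_filter.mp (Finset.mem_filter.mp hw).1).1)
      have hA := glue hE2 hE1 hdis2 hxin
      rw [hunion2] at hA
      refine ⟨_, hA, glue_proper hE2 hE1 hdis2 hxin
        (hP.mono ((Finset.filter_subset _ _).trans hEQF)) hE1P n1 n2, ?_⟩
      intro w i hw
      rw [Finset.mem_insert, Finset.mem_union] at hw
      rcases hw with hw | hw | hw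
      · rw [(Prod.mk.inj hw).2]
        exact Or.inl (hWmono' hjW)
      · exact Or.inr (hEQF (Finset.mem_filter.mp hw).1)
      · rcases Finset.mem_union.mp hw with hw | hw
        · exact (hE'A' hw).imp (fun h => hWmono' h) id
        · exact Or.inr (Finset.mem_filter.mp (Finset.mem_filter.mp hw).1).1
  have := hmax B' (Finset.mem_filter.mpr ⟨Finset.mem_powerset.mpr hB'S, hInv⟩)
  omega

end

end ProperArb
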