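import Mathlib

/-!
# Properly coloured arborescences: basic operations

`p j y` is the parent of `y` in the arborescence of colour `j`. An arc is a pair `(y, j)`: the arc
of colour `j` with head `y` and tail `p j y`.
-/

set_option linter.unusedSectionVars false
set_option linter.unusedVariables false

namespace ProperArb

variable {V C : Type*} [DecidableEq V] [DecidableEq C] {p : C → V → V}

/-- The arcs `E` form a spanning arborescence of `Z` with root `v`. -/
structure IsArb (p : C → V → V) (E : Finset (V × C)) (Z : Finset V) (v : V) : Prop where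
  root_mem : v ∈ Z
  head_mem : ∀ {y j}, (y, j) ∈ E → y ∈ Z
  head_ne : ∀ {y j}, (y, j) ∈ E → y ≠ v
  tail_mem : ∀ {y j}, (y, j) ∈ E → p j y ∈ Z
  uniq : ∀ {y j j'}, (y, j) ∈ E → (y, j') ∈ E → j = j'
  enter : ∀ Y ⊆ Z, Y.Nonempty → v ∉ Y → ∃ y ∈ Y, ∃ j, (y, j) ∈ E ∧ p j y ∉ Y

/-- Two arcs of the same colour are not adjacent. -/
def Proper (p : C → V → V) (E : Finset (V × C)) : Prop :=
  ∀ ⦃y y' j⦄, (y, j) ∈ E → (y', j) ∈ E → y ≠ y' → p j y ≠ p j y' ∧ p j y ≠ y'

/-- Some arc of `E` of colour `j` is incident with `x`. -/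
def At (p : C → V → V) (E : Finset (V × C)) (x : V) (j : C) : Prop :=
  ∃ y, (y, j) ∈ E ∧ (y = x ∨ p j y = x)

/-- All arcs of `E` have a colour in `W` or are arcs of `H`. -/
def Allowed (W : Finset C) (H E : Finset (V × C)) : Prop :=
  ∀ ⦃y j⦄, (y, j) ∈ E → j ∈ W ∨ (y, j) ∈ H

lemma Proper.mono {E E' : Finset (V × C)} (h : Proper p E) (hs : E' ⊆ E) : Proper p E' :=
  fun _ _ _ h1 h2 => h (hs h1) (hs h2)

lemma Proper.insert_unused {E : Finset (V × C)} {y : V} {d : C} (h : Proper p E)
    (hd : ∀ x, (x, d) ∉ E) : Proper p (insert (y, d) E) := by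
  intro a b j ha hb hab
  rw [Finset.mem_insert] at ha hb
  rcases ha with ha | ha
  · rcases hb with hb | hb
    · exact absurd ((Prod.mk.inj ha).1.trans (Prod.mk.inj hb).1.symm) hab
    · have := (Prod.mk.inj ha).2
      subst this
      exact absurd hb (hd _)
  · rcases hb with hb | hb
    · have := (Prod.mk.inj hb).2
      subst this
      exact absurd ha (hd _)
    · exact h ha hb hab

lemma At.mono {E E' : Finset (V × C)} {x : V} {j : C} (h : At p E x j) (hs : E ⊆ E') :
    At p E' x j := by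
  obtain ⟨y, hy, h'⟩ := h
  exact ⟨y, hs hy, h'⟩

lemma not_at_of_unused {E : Finset (V × C)} {x : V} {j : C} (h : ∀ y, (y, j) ∉ E) :
    ¬ At p E x j := fun ⟨y, hy, _⟩ => h y hy

lemma At.unique {E : Finset (V × C)} (h : Proper p E) {x y y' : V} {j : C}
    (h1 : (y, j) ∈ E) (h1' : y = x ∨ p j y = x) (h2 : (y', j) ∈ E) (h2' : y' = x ∨ p j y' = x) :
    y = y' := by
  by_contra hne
  have a := h h1 h2 hne
  have b := h h2 h1 (Ne.symm hne)
  rcases h1' with h1' | h1' <;> rcases h2' with h2' | h2'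
  · exact hne (h1'.trans h2'.symm)
  · exact b.2 (h2'.trans h1'.symm)
  · exact a.2 (h1'.trans h2'.symm)
  · exact a.1 (h1'.trans h2'.symm)

section
variable {E E1 E2 : Finset (V × C)} {Z R Q B : Finset V} {v e : V} {j : C}

lemma IsArb.exists_in (h : IsArb p E Z v) {y : V} (hy : y ∈ Z) (hne : y ≠ v) :
    ∃ j, (y, j) ∈ E := by
  obtain ⟨x, hx, j, hj, _⟩ := h.enter {y} (by simpa using hy) ⟨y, by simp⟩ (by simpa using Ne.symm hne)
  rw [Finset.mem_singleton] at hx
  subst hx
  exact ⟨j, hj⟩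

lemma IsArb.card (h : IsArb p E Z v) : E.card + 1 = Z.card := by
  have h1 : E.image Prod.fst = Z.erase v := by
    ext y
    simp only [Finset.mem_image, Finset.mem_erase, Prod.exists, exists_and_right, exists_eq_right]
    constructor
    · rintro ⟨j, hj⟩
      exact ⟨h.head_ne hj, h.head_mem hj⟩
    · rintro ⟨h1, h2⟩
      exact h.exists_in h2 h1
  have h2 : (E.image Prod.fst).card = E.card := by
    apply Finset.card_image_of_injOn
    rintro ⟨y, j⟩ hy ⟨y', j'⟩ hy' heq
    simp only at heq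
    subst heq
    rw [h.uniq hy hy']
  have h3 := Finset.card_erase_of_mem h.root_mem
  have h4 : 0 < Z.card := Finset.card_pos.mpr ⟨v, h.root_mem⟩
  rw [← h1, h2] at h3
  omega

lemma IsArb.not_at (h : IsArb p E Z v) {x : V} (hx : x ∉ Z) : ¬ At p E x j := by
  rintro ⟨y, hy, h' | h'⟩
  · exact hx (h' ▸ h.head_mem hy)
  · exact hx (h' ▸ h.tail_mem hy)

lemma isArb_single (v : V) : IsArb p ∅ {v} v where
  root_mem := by simp
  head_mem := by simp
  head_ne := by simp
  tail_mem := by simp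
  uniq := by simp
  enter := by
    intro Y hY hne hv
    obtain ⟨y, hy⟩ := hne
    have := Finset.mem_singleton.mp (hY hy)
    subst this
    exact absurd hy hv

lemma proper_empty : Proper p ∅ := by
  intro y y' j h
  simp at h

lemma glue (h1 : IsArb p E1 R v) (h2 : IsArb p E2 Q e) (hd : Disjoint R Q) (ha : p j e ∈ R) :
    IsArb p (insert (e, j) (E1 ∪ E2)) (R ∪ Q) v where
  root_mem := Finset.mem_union_left _ h1.root_mem
  head_mem := by
    intro y i h
    rw [Finset.mem_insert, Finset.mem_union] at h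
    rcases h with h | h | h
    · obtain ⟨rfl, rfl⟩ := Prod.mk.inj h
      exact Finset.mem_union_right _ h2.root_mem
    · exact Finset.mem_union_left _ (h1.head_mem h)
    · exact Finset.mem_union_right _ (h2.head_mem h)
  head_ne := by
    intro y i h
    rw [Finset.mem_insert, Finset.mem_union] at h
    rcases h with h | h | h
    · obtain ⟨rfl, rfl⟩ := Prod.mk.inj h
      intro hv
      exact Finset.disjoint_left.mp hd h1.root_mem (hv ▸ h2.root_mem)
    · exact h1.head_ne h
    · intro hv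
      exact Finset.disjoint_left.mp hd h1.root_mem (hv ▸ h2.head_mem h)
  tail_mem := by
    intro y i h
    rw [Finset.mem_insert, Finset.mem_union] at h
    rcases h with h | h | h
    · obtain ⟨rfl, rfl⟩ := Prod.mk.inj h
      exact Finset.mem_union_left _ ha
    · exact Finset.mem_union_left _ (h1.tail_mem h)
    · exact Finset.mem_union_right _ (h2.tail_mem h)
  uniq := by
    intro y i i' h h'
    rw [Finset.mem_insert, Finset.mem_union] at h h'
    have hdis := Finset.disjoint_left.mp hd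
    rcases h with h | h | h <;> rcases h' with h' | h' | h'
    · exact (Prod.mk.inj h).2.trans (Prod.mk.inj h').2.symm
    · exact absurd ((Prod.mk.inj h).1 ▸ h2.root_mem) (hdis (h1.head_mem h'))
    · exact absurd (Prod.mk.inj h).1 (h2.head_ne h')
    · exact absurd ((Prod.mk.inj h').1 ▸ h2.root_mem) (hdis (h1.head_mem h))
    · exact h1.uniq h h'
    · exact absurd (h2.head_mem h') (hdis (h1.head_mem h))
    · exact absurd (Prod.mk.inj h').1 (h2.head_ne h)
    · exact absurd (h2.head_mem h) (hdis (h1.head_mem h'))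
    · exact h2.uniq h h'
  enter := by
    intro Y hY hne hv
    have hdis := Finset.disjoint_left.mp hd
    by_cases hR : (Y ∩ R).Nonempty
    · obtain ⟨y, hy, i, hi, hp⟩ := h1.enter (Y ∩ R) Finset.inter_subset_right hR
        (fun h => hv (Finset.mem_inter.mp h).1)
      refine ⟨y, (Finset.mem_inter.mp hy).1, i, ?_, ?_⟩
      · rw [Finset.mem_insert, Finset.mem_union]; exact Or.inr (Or.inl hi)
      · intro h
        exact hp (Finset.mem_inter.mpr ⟨h, h1.tail_mem hi⟩)
    · have hYR : ∀ y ∈ Y, y ∉ R := fun y hy hyR => hR ⟨y, Finset.mem_inter.mpr ⟨hy, hyR⟩⟩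
      by_cases he : e ∈ Y
      · exact ⟨e, he, j, Finset.mem_insert_self _ _, fun h => hYR _ h ha⟩
      · have hYQ : Y ⊆ Q := by
          intro y hy
          exact (Finset.mem_union.mp (hY hy)).resolve_left (hYR y hy)
        obtain ⟨y, hy, i, hi, hp⟩ := h2.enter Y hYQ hne he
        refine ⟨y, hy, i, ?_, hp⟩
        rw [Finset.mem_insert, Finset.mem_union]; exact Or.inr (Or.inr hi)

lemma glue_proper (h1 : IsArb p E1 R v) (h2 : IsArb p E2 Q e) (hd : Disjoint R Q)
    (ha : p j e ∈ R) (p1 : Proper p E1) (p2 : Proper p E2) (n1 : ¬ At p E1 (p j e) j)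
    (n2 : ¬ At p E2 e j) : Proper p (insert (e, j) (E1 ∪ E2)) := by
  have hdis := Finset.disjoint_left.mp hd
  intro y y' i h h' hne
  rw [Finset.mem_insert, Finset.mem_union] at h h'
  rcases h with h | h | h <;> rcases h' with h' | h' | h'
  · exact absurd ((Prod.mk.inj h).1.trans (Prod.mk.inj h').1.symm) hne
  · obtain ⟨rfl, rfl⟩ := Prod.mk.inj h
    exact ⟨fun hh => n1 ⟨y', h', Or.inr hh.symm⟩, fun hh => n1 ⟨y', h', Or.inl hh.symm⟩⟩
  · obtain ⟨rfl, rfl⟩ := Prod.mk.inj h
    refine ⟨fun hh => ?_, fun hh => ?_⟩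
    · exact hdis ha (hh ▸ h2.tail_mem h')
    · exact hdis ha (hh ▸ h2.head_mem h')
  · obtain ⟨rfl, rfl⟩ := Prod.mk.inj h'
    refine ⟨fun hh => n1 ⟨y, h, Or.inr hh⟩, fun hh => ?_⟩
    exact hdis (h1.tail_mem h) (hh ▸ h2.root_mem)
  · exact p1 h h' hne
  · exact ⟨fun hh => hdis (h1.tail_mem h) (hh ▸ h2.tail_mem h'),
      fun hh => hdis (h1.tail_mem h) (hh ▸ h2.head_mem h')⟩
  · obtain ⟨rfl, rfl⟩ := Prod.mk.inj h'
    refine ⟨fun hh => ?_, fun hh => n2 ⟨y, h, Or.inr hh⟩⟩
    exact hdis ha (hh ▸ h2.tail_mem h)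
  · exact ⟨fun hh => hdis (h1.tail_mem h') (hh ▸ h2.tail_mem h),
      fun hh => hdis (h1.head_mem h') (hh ▸ h2.tail_mem h)⟩
  · exact p2 h h' hne

lemma IsArb.restrict (h : IsArb p E Z v) (hB : B ⊆ Z) (hv : v ∈ B)
    (hup : ∀ y i, (y, i) ∈ E → y ∈ B → p i y ∈ B) :
    IsArb p (E.filter (fun a => a.1 ∈ B)) B v where
  root_mem := hv
  head_mem := fun h' => (Finset.mem_filter.mp h').2
  head_ne := fun h' => h.head_ne (Finset.mem_filter.mp h').1
  tail_mem := fun h' => hup _ _ (Finset.mem_filter.mp h').1 (Finset.mem_filter.mp h').2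
  uniq := fun h1 h2 => h.uniq (Finset.mem_filter.mp h1).1 (Finset.mem_filter.mp h2).1
  enter := by
    intro Y hY hne hvY
    obtain ⟨y, hy, j, hj, hp⟩ := h.enter Y (hY.trans hB) hne hvY
    exact ⟨y, hy, j, Finset.mem_filter.mpr ⟨hj, hY hy⟩, hp⟩

lemma IsArb.subst {z : V} (h : IsArb p E Z z) (hB : B ⊆ Z) (hz : z ∈ B)
    (h' : IsArb p E1 B v) : IsArb p (E1 ∪ E.filter (fun a => a.1 ∉ B)) Z v where
  root_mem := hB h'.root_mem
  head_mem := by
    intro y i hy
    rcases Finset.mem_union.mp hy with hy | hy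
    · exact hB (h'.head_mem hy)
    · exact h.head_mem (Finset.mem_filter.mp hy).1
  head_ne := by
    intro y i hy
    rcases Finset.mem_union.mp hy with hy | hy
    · exact h'.head_ne hy
    · intro hyv
      exact (Finset.mem_filter.mp hy).2 (hyv ▸ h'.root_mem)
  tail_mem := by
    intro y i hy
    rcases Finset.mem_union.mp hy with hy | hy
    · exact hB (h'.tail_mem hy)
    · exact h.tail_mem (Finset.mem_filter.mp hy).1
  uniq := by
    intro y i i' hy hy'
    rcases Finset.mem_union.mp hy with hy | hy <;> rcases Finset.mem_union.mp hy' with hy' | hy'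
    · exact h'.uniq hy hy'
    · exact absurd (h'.head_mem hy) (Finset.mem_filter.mp hy').2
    · exact absurd (h'.head_mem hy') (Finset.mem_filter.mp hy).2
    · exact h.uniq (Finset.mem_filter.mp hy).1 (Finset.mem_filter.mp hy').1
  enter := by
    intro Y hY hne hv
    by_cases hYB : (Y ∩ B).Nonempty
    · obtain ⟨y, hy, i, hi, hp⟩ := h'.enter (Y ∩ B) Finset.inter_subset_right hYB
        (fun hh => hv (Finset.mem_inter.mp hh).1)
      refine ⟨y, (Finset.mem_inter.mp hy).1, i, Finset.mem_union_left _ hi, fun hh => ?_⟩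
      exact hp (Finset.mem_inter.mpr ⟨hh, h'.tail_mem hi⟩)
    · have hYR : ∀ y ∈ Y, y ∉ B := fun y hy hyR => hYB ⟨y, Finset.mem_inter.mpr ⟨hy, hyR⟩⟩
      obtain ⟨y, hy, i, hi, hp⟩ := h.enter Y hY hne (fun hh => hYR _ hh hz)
      exact ⟨y, hy, i, Finset.mem_union_right _ (Finset.mem_filter.mpr ⟨hi, hYR y hy⟩), hp⟩

lemma subst_proper (hE : Proper p E) (h' : IsArb p E1 B v) (hE1 : Proper p E1)
    (hc : ∀ y i, (y, i) ∈ E1 → (y, i) ∈ E ∨ ∀ y', (y', i) ∈ E → y' ∈ B) :
    Proper p (E1 ∪ E.filter (fun a => a.1 ∉ B)) := by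
  intro y y' i hy hy' hne
  rcases Finset.mem_union.mp hy with hy | hy <;> rcases Finset.mem_union.mp hy' with hy' | hy'
  · exact hE1 hy hy' hne
  · rcases hc _ _ hy with h | h
    · exact hE h (Finset.mem_filter.mp hy').1 hne
    · exact absurd (h _ (Finset.mem_filter.mp hy').1) (Finset.mem_filter.mp hy').2
  · rcases hc _ _ hy' with h | h
    · exact hE (Finset.mem_filter.mp hy).1 h hne
    · exact absurd (h _ (Finset.mem_filter.mp hy).1) (Finset.mem_filter.mp hy).2
  · exact hE (Finset.mem_filter.mp hy).1 (Finset.mem_filter.mp hy').1 hne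

/-- Cut an arborescence at the arc entering the non-root vertex `e`. -/
lemma IsArb.cut (h : IsArb p E Z v) (he : e ∈ Z) (hne : e ≠ v) :
    ∃ (R Q : Finset V) (ER EQ : Finset (V × C)) (c : C), Disjoint R Q ∧ R ∪ Q = Z ∧
      IsArb p ER R v ∧ IsArb p EQ Q e ∧ p c e ∈ R ∧ E = insert (e, c) (ER ∪ EQ) := by
  classical
  let U : Finset (Finset V) := Z.powerset.filter
    (fun R => v ∈ R ∧ e ∉ R ∧ ∀ y i, (y, i) ∈ E → y ∈ R → p i y ∈ R)
  have hU : U.Nonempty := by
    refine ⟨{v}, Finset.mem_filter.mpr ⟨?_, ?_, ?_, ?_⟩⟩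
    · rw [Finset.mem_powerset, Finset.singleton_subset_iff]; exact h.root_mem
    · simp
    · simpa using hne
    · intro y i hy hyv
      exact absurd (Finset.mem_singleton.mp hyv) (h.head_ne hy)
  obtain ⟨R, hRU, hmax⟩ := Finset.exists_max_image U Finset.card hU
  obtain ⟨hRZ, hvR, heR, hup⟩ := Finset.mem_filter.mp hRU
  rw [Finset.mem_powerset] at hRZ
  have hdown : ∀ y i, (y, i) ∈ E → y ∉ R → y ≠ e → p i y ∉ R := by
    intro y i hy hyR hye hp
    have : insert y R ∈ U := by
      refine Finset.mem_filter.mpr ⟨?_, ?_, ?_, ?_⟩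
      · rw [Finset.mem_powerset]
        exact Finset.insert_subset (h.head_mem hy) hRZ
      · exact Finset.mem_insert_of_mem hvR
      · rw [Finset.mem_insert]
        rintro (h1 | h1)
        · exact hye h1.symm
        · exact heR h1
      · intro y' i' hy' hy'R
        rcases Finset.mem_insert.mp hy'R with h1 | h1
        · subst h1
          rw [h.uniq hy' hy]
          exact Finset.mem_insert_of_mem hp
        · exact Finset.mem_insert_of_mem (hup _ _ hy' h1)
    have h2 := hmax _ this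
    rw [Finset.card_insert_of_notMem hyR] at h2
    omega
  set Q := Z \ R with hQ
  have hmemQ : ∀ y, y ∈ Q ↔ y ∈ Z ∧ y ∉ R := fun y => Finset.mem_sdiff
  have heQ : e ∈ Q := (hmemQ e).mpr ⟨he, heR⟩
  have hvQ : v ∉ Q := fun hh => ((hmemQ v).mp hh).2 hvR
  obtain ⟨y, hy, c, hc, hp⟩ := h.enter Q Finset.sdiff_subset ⟨e, heQ⟩ hvQ
  have hye : y = e := by
    by_contra hye
    have h1 := hdown y c hc ((hmemQ y).mp hy).2 hye
    exact hp ((hmemQ _).mpr ⟨h.tail_mem hc, h1⟩)
  subst hye
  have hpR : p c y ∈ R := by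
    by_contra h1
    exact hp ((hmemQ _).mpr ⟨h.tail_mem hc, h1⟩)
  refine ⟨R, Q, E.filter (fun a => a.1 ∈ R), E.filter (fun a => a.1 ∈ Q ∧ a.1 ≠ y), c,
    Finset.disjoint_sdiff, Finset.union_sdiff_of_subset hRZ, h.restrict hRZ hvR hup, ?_, hpR, ?_⟩
  · exact
      { root_mem := heQ
        head_mem := fun h' => (Finset.mem_filter.mp h').2.1
        head_ne := fun h' => (Finset.mem_filter.mp h').2.2
        tail_mem := by
          intro x i hx
          obtain ⟨h1, h2, h3⟩ := Finset.mem_filter.mp hx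
          exact (hmemQ _).mpr ⟨h.tail_mem h1, hdown _ _ h1 ((hmemQ _).mp h2).2 h3⟩
        uniq := fun h1 h2 => h.uniq (Finset.mem_filter.mp h1).1 (Finset.mem_filter.mp h2).1
        enter := by
          intro Y hY hneY hyY
          obtain ⟨x, hx, i, hi, hp'⟩ := h.enter Y (hY.trans Finset.sdiff_subset) hneY
            (fun hh => hvQ (hY hh))
          refine ⟨x, hx, i, Finset.mem_filter.mpr ⟨hi, hY hx, ?_⟩, hp'⟩
          rintro rfl
          exact hyY hx }
  · ext ⟨x, i⟩
    rw [Finset.mem_insert, Finset.mem_union, Finset.mem_filter, Finset.mem_filter]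
    constructor
    · intro hx
      by_cases hxy : x = y
      · subst hxy
        left
        rw [h.uniq hx hc]
      · right
        by_cases hxR : x ∈ R
        · exact Or.inl ⟨hx, hxR⟩
        · exact Or.inr ⟨hx, (hmemQ x).mpr ⟨h.head_mem hx, hxR⟩, hxy⟩
    · rintro (hx | hx | hx)
      · rw [hx]; exact hc
      · exact hx.1
      · exact hx.1

end

end ProperArb
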