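import Mathlib

/-!
# Spanning arborescences of digraphs and properly coloured sets of arcs

A digraph on the vertex set `V` is given by a type `E` of arcs and the maps `src tgt : E → V` that
give the tail and the head of each arc (so parallel arcs are allowed).
-/

namespace ArborescenceColouring

variable {V E K : Type*}

/-- The underlying undirected graph of the set `F` of arcs. -/
def underlying (src tgt : E → V) (F : Finset E) : SimpleGraph V :=
  SimpleGraph.fromRel (fun x y => ∃ e ∈ F, src e = x ∧ tgt e = y)

/-- `F` is a spanning arborescence: a set of `|V| - 1` arcs forming a spanning tree of the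
underlying undirected graph in which one vertex (the root) has in-degree `0` and every other vertex
has in-degree exactly `1`. -/
def IsSpanningArborescence [Fintype V] (src tgt : E → V) (F : Finset E) : Prop :=
  F.card + 1 = Fintype.card V ∧ (underlying src tgt F).IsTree ∧
    ∃ r : V, (∀ e ∈ F, tgt e ≠ r) ∧ ∀ v, v ≠ r → ∃! e, e ∈ F ∧ tgt e = v

/-- Two arcs are adjacent if they share an endpoint. -/
def Adjacent (src tgt : E → V) (e f : E) : Prop :=
  src e = src f ∨ src e = tgt f ∨ tgt e = src f ∨ tgt e = tgt f

/-- Any two adjacent arcs of `F` have distinct colours. -/
def ProperlyColoured (src tgt : E → V) (col : E → K) (F : Finset E) : Prop :=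
  ∀ e ∈ F, ∀ f ∈ F, e ≠ f → Adjacent src tgt e f → col e ≠ col f

end ArborescenceColouring
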