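import Pool.Agent.Lib.MP_86bf3a_co.ThmA

/-!
# The combinatorial main theorem
-/

set_option linter.unusedSectionVars false
set_option linter.unusedVariables false

namespace ProperArb

variable {V C : Type*} [DecidableEq V] [DecidableEq C] {p : C → V → V} {r : C → V}

/-- All arcs of `E` have a colour in `D`. -/
def Col (D : Finset C) (E : Finset (V × C)) : Prop := ∀ ⦃y i⦄, (y, i) ∈ E → i ∈ D

/-- There is no proper spanning arborescence of `T` coloured from `D`. -/
def NoFull (p : C → V → V) (T : Finset V) (D : Finset C) : Prop :=
  ∀ E v, IsArb p E T v → Proper p E → Col D E → False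

lemma Col.insert_union {D : Finset C} {E1 E2 : Finset (V × C)} {e : V} {j : C} (h1 : Col D E1)
    (h2 : Col D E2) (hj : j ∈ D) : Col D (insert (e, j) (E1 ∪ E2)) := by
  intro y i hy
  rw [Finset.mem_insert, Finset.mem_union] at hy
  rcases hy with hy | hy | hy
  · rw [(Prod.mk.inj hy).2]; exact hj
  · exact h1 hy
  · exact h2 hy

lemma Col.mono {D : Finset C} {E E' : Finset (V × C)} (h : Col D E) (hs : E' ⊆ E) : Col D E' :=
  fun _ _ hy => h (hs hy)

/-- Two arborescences that cover `T` and a link give a contradiction. -/
lemma NoFull.glue {T : Finset V} {D : Finset C} (hno : NoFull p T D) {E1 E2 : Finset (V × C)}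
    {R Q : Finset V} {v e : V} {j : C} (h1 : IsArb p E1 R v) (h2 : IsArb p E2 Q e)
    (hd : Disjoint R Q) (hT : R ∪ Q = T) (ha : p j e ∈ R) (p1 : Proper p E1) (p2 : Proper p E2)
    (c1 : Col D E1) (c2 : Col D E2) (hj : j ∈ D)
    (n1 : ¬ At p E1 (p j e) j) (n2 : ¬ At p E2 e j) : False :=
  hno _ _ (hT ▸ ProperArb.glue h1 h2 hd ha) (glue_proper h1 h2 hd ha p1 p2 n1 n2)
    (c1.insert_union c2 hj)

/-- The structures used in the case of one missing vertex `t`. -/
structure St (p : C → V → V) (r : C → V) (T : Finset V) (D : Finset C) (t : V)
    (X R Q : Finset V) (z b : V) (G FR FQ : Finset (V × C)) (k : C) : Prop where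
  dXR : Disjoint X R
  dXQ : Disjoint X Q
  dRQ : Disjoint R Q
  union : X ∪ (R ∪ Q) = T
  hG : IsArb p G X t
  hGP : Proper p G
  hGD : Col D G
  hR : IsArb p FR R z
  hQ : IsArb p FQ Q b
  hk : p k b ∈ R
  hFP : Proper p (insert (b, k) (FR ∪ FQ))
  hFD : Col D (insert (b, k) (FR ∪ FQ))
  hrk : r k ≠ t
  huk : b = p k t ∨ p k b = p k t
  hX : ∀ j ∈ D, r j ≠ t → p j t ∉ X ∧ ¬ At p G t j

section
variable {T X R Q : Finset V} {D : Finset C} {t z b : V} {G FR FQ : Finset (V × C)} {k : C}

/-- Nonexistence of the structures. -/
lemma no_st (hA : Enters p r) (hT : T.card ≤ D.card + 1) (hDp : ∀ j ∈ D, ∀ y ∈ T, p j y ∈ T)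
    (hno : NoFull p T D) :
    ¬ ∃ X R Q z b G FR FQ k, St p r T D t X R Q z b G FR FQ k := by
  classical
  have key : ∀ N, ∀ X R Q z b G FR FQ k, St p r T D t X R Q z b G FR FQ k →
      Q.card = N → False := by
    intro N
    induction N using Nat.strong_induction_on with
    | _ N ih =>
      intro X R Q z b G FR FQ k s hN
      have hmin : ∀ X' R' Q' z' b' G' FR' FQ' k', St p r T D t X' R' Q' z' b' G' FR' FQ' k' →
          ¬ Q'.card < Q.card :=
        fun X' R' Q' z' b' G' FR' FQ' k' s' hlt =>
          ih _ (hN ▸ hlt) X' R' Q' z' b' G' FR' FQ' k' s' rfl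
      have hXR := Finset.disjoint_left.mp s.dXR
      have hXQ := Finset.disjoint_left.mp s.dXQ
      have hRQ := Finset.disjoint_left.mp s.dRQ
      have hXT : X ⊆ T := s.union ▸ Finset.subset_union_left
      have hRT : R ⊆ T := by
        rw [← s.union]; exact Finset.subset_union_left.trans Finset.subset_union_right
      have hQT : Q ⊆ T := by
        rw [← s.union]; exact Finset.subset_union_right.trans Finset.subset_union_right
      have htX : t ∈ X := s.hG.root_mem
      have htT : t ∈ T := hXT htX
      have htR : t ∉ R := hXR htX
      have htQ : t ∉ Q := hXQ htX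
      have hbQ : b ∈ Q := s.hQ.root_mem
      have hbR : b ∉ R := fun h => hRQ h hbQ
      have hFY := glue s.hR s.hQ s.dRQ s.hk
      have hkmem : (b, k) ∈ insert (b, k) (FR ∪ FQ) := Finset.mem_insert_self _ _
      have hkD : k ∈ D := s.hFD hkmem
      have hFRs : FR ⊆ insert (b, k) (FR ∪ FQ) :=
        Finset.subset_union_left.trans (Finset.subset_insert _ _)
      have hFQs : FQ ⊆ insert (b, k) (FR ∪ FQ) :=
        Finset.subset_union_right.trans (Finset.subset_insert _ _)
      have dXY : Disjoint (R ∪ Q) X := by
        rw [Finset.disjoint_union_left]; exact ⟨s.dXR.symm, s.dXQ.symm⟩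
      have hYX : (R ∪ Q) ∪ X = T := by rw [Finset.union_comm, s.union]
      have hcases : ∀ x ∈ T, x ∈ X ∨ x ∈ R ∨ x ∈ Q := by
        intro x hx
        rw [← s.union, Finset.mem_union, Finset.mem_union] at hx
        exact hx
      have hcardT : X.card + (R.card + Q.card) = T.card := by
        rw [← s.union, Finset.card_union_of_disjoint dXY.symm,
          Finset.card_union_of_disjoint s.dRQ]
      -- (α)
      have alpha : ∀ j ∈ D, j ≠ k → r j ≠ t → p j t ∈ R := by
        intro j hj hjk hjt
        obtain ⟨hjX, hjG⟩ := s.hX j hj hjt
        have hjT := hDp j hj t htT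
        have hjY : p j t ∈ R ∪ Q := by
          rw [Finset.mem_union]
          exact (hcases _ hjT).resolve_left hjX
        have hat : At p (insert (b, k) (FR ∪ FQ)) (p j t) j := by
          by_contra hat
          exact hno.glue hFY s.hG dXY hYX hjY s.hFP s.hGP s.hFD s.hGD hj hat hjG
        by_contra hjR
        have hjQ : p j t ∈ Q := (Finset.mem_union.mp hjY).resolve_left hjR
        obtain ⟨bj, hbj, hbj'⟩ := hat
        have hbjFQ : (bj, j) ∈ FQ := by
          rw [Finset.mem_insert, Finset.mem_union] at hbj
          rcases hbj with h | h | h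
          · exact absurd (Prod.mk.inj h).2 hjk
          · exfalso
            rcases hbj' with h' | h'
            · exact hjR (h' ▸ s.hR.head_mem h)
            · exact hjR (h' ▸ s.hR.tail_mem h)
          · exact h
        obtain ⟨Q1, Q2, E1, E2, c1, hdis, hunion, hE1, hE2, hc1, hFQeq⟩ :=
          s.hQ.cut (s.hQ.head_mem hbjFQ) (s.hQ.head_ne hbjFQ)
        have hQ1 : Q1 ⊆ Q := hunion ▸ Finset.subset_union_left
        have hQ2 : Q2 ⊆ Q := hunion ▸ Finset.subset_union_right
        have hcj : c1 = j := s.hQ.uniq (hFQeq ▸ Finset.mem_insert_self _ _) hbjFQ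
        subst hcj
        have heq : insert (bj, c1) (insert (b, k) (FR ∪ E1) ∪ E2) =
            insert (b, k) (FR ∪ FQ) := by
          rw [hFQeq]
          ext a
          simp only [Finset.mem_insert, Finset.mem_union]
          tauto
        have s' : St p r T D t X (R ∪ Q1) Q2 z bj G (insert (b, k) (FR ∪ E1)) E2 c1 := by
          refine
            { dXR := ?_
              dXQ := Finset.disjoint_of_subset_right hQ2 s.dXQ
              dRQ := ?_
              union := ?_
              hG := s.hG
              hGP := s.hGP
              hGD := s.hGD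
              hR := glue s.hR hE1 (Finset.disjoint_of_subset_right hQ1 s.dRQ) s.hk
              hQ := hE2
              hk := Finset.mem_union_right _ hc1
              hFP := heq ▸ s.hFP
              hFD := heq ▸ s.hFD
              hrk := hjt
              huk := hbj'
              hX := s.hX }
          · rw [Finset.disjoint_union_right]
            exact ⟨s.dXR, Finset.disjoint_of_subset_right hQ1 s.dXQ⟩
          · rw [Finset.disjoint_union_left]
            exact ⟨Finset.disjoint_of_subset_right hQ2 s.dRQ, hdis⟩
          · rw [Finset.union_assoc R, hunion, s.union]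
        refine hmin _ _ _ _ _ _ _ _ _ s' ?_
        have h1 : Q1.card + Q2.card = Q.card := by
          rw [← hunion, Finset.card_union_of_disjoint hdis]
        have h2 : 0 < Q1.card := Finset.card_pos.mpr ⟨b, hE1.root_mem⟩
        omega
      -- (β)
      obtain ⟨w, hw⟩ : (D \ (G ∪ insert (b, k) (FR ∪ FQ)).image Prod.snd).Nonempty := by
        rw [← Finset.card_pos]
        have g1 := Finset.le_card_sdiff ((G ∪ insert (b, k) (FR ∪ FQ)).image Prod.snd) D
        have g2 : ((G ∪ insert (b, k) (FR ∪ FQ)).image Prod.snd).card ≤
          (G ∪ insert (b, k) (FR ∪ FQ)).card := Finset.card_image_le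
        have g3 := Finset.card_union_le G (insert (b, k) (FR ∪ FQ))
        have g4 := hFY.card
        have g5 := s.hG.card
        rw [Finset.card_union_of_disjoint s.dRQ] at g4
        omega
      obtain ⟨hwD, hw2⟩ := Finset.mem_sdiff.mp hw
      have hwG : ∀ y, (y, w) ∉ G := fun y hy =>
        hw2 (Finset.mem_image.mpr ⟨(y, w), Finset.mem_union_left _ hy, rfl⟩)
      have hwF : ∀ y, (y, w) ∉ insert (b, k) (FR ∪ FQ) := fun y hy =>
        hw2 (Finset.mem_image.mpr ⟨(y, w), Finset.mem_union_right _ hy, rfl⟩)
      have hwk : w ≠ k := fun h => hwF b (h ▸ hkmem)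
      have hrw : r w = t := by
        by_contra hrw
        have hwY : p w t ∈ R ∪ Q := by
          rw [Finset.mem_union]
          exact (hcases _ (hDp w hwD t htT)).resolve_left (s.hX w hwD hrw).1
        exact hno.glue hFY s.hG dXY hYX hwY s.hFP s.hGP s.hFD s.hGD hwD
          (not_at_of_unused hwF) (not_at_of_unused hwG)
      -- (γ)
      have hkT : p k t ∈ R ∪ Q := by
        rw [Finset.mem_union]
        rcases s.huk with h | h
        · rw [← h]; exact Or.inr hbQ
        · rw [← h]; exact Or.inl s.hk
      have hkat : b = p k t ∨ p k b = p k t := s.huk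
      have hwb : p w b ∈ X := by
        obtain ⟨q, hqQ, hpq⟩ := hA w Q ⟨b, hbQ⟩ (by rw [hrw]; exact htQ)
        have hpqT := hDp w hwD q (hQT hqQ)
        by_cases hqb : q = b
        · subst hqb
          rcases hcases _ hpqT with h | h | h
          · exact h
          · exfalso
            have hFY' := glue s.hR s.hQ s.dRQ h
            refine hno.glue hFY' s.hG dXY hYX hkT
              (glue_proper s.hR s.hQ s.dRQ h (s.hFP.mono hFRs) (s.hFP.mono hFQs)
                (not_at_of_unused (fun y hy => hwF y (hFRs hy)))
                (not_at_of_unused (fun y hy => hwF y (hFQs hy)))) s.hGP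
              ((s.hFD.mono hFRs).insert_union (s.hFD.mono hFQs) hwD) s.hGD hkD ?_
              (s.hX k hkD s.hrk).2
            rintro ⟨y, hy, hyk⟩
            rw [Finset.mem_insert, Finset.mem_union] at hy
            rcases hy with hy | hy | hy
            · exact hwk (Prod.mk.inj hy).2.symm
            · have := At.unique s.hFP (hFRs hy) hyk hkmem hkat
              exact hbR (this ▸ s.hR.head_mem hy)
            · have := At.unique s.hFP (hFQs hy) hyk hkmem hkat
              exact s.hQ.head_ne hy this
          · exact absurd h hpq
        · exfalso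
          obtain ⟨Q1, Q2, E1, E2, c1, hdis, hunion, hE1, hE2, hc1, hFQeq⟩ := s.hQ.cut hqQ hqb
          have hQ1 : Q1 ⊆ Q := hunion ▸ Finset.subset_union_left
          have hQ2 : Q2 ⊆ Q := hunion ▸ Finset.subset_union_right
          have hE1s : E1 ⊆ FQ := by
            rw [hFQeq]; exact (Finset.subset_union_left).trans (Finset.subset_insert _ _)
          have hE2s : E2 ⊆ FQ := by
            rw [hFQeq]; exact (Finset.subset_union_right).trans (Finset.subset_insert _ _)
          have hlt : Q1.card < Q.card := by
            have h1 : Q1.card + Q2.card = Q.card := by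
              rw [← hunion, Finset.card_union_of_disjoint hdis]
            have h2 : 0 < Q2.card := Finset.card_pos.mpr ⟨q, hE2.root_mem⟩
            omega
          have hsub1 : insert (b, k) (FR ∪ E1) ⊆ insert (b, k) (FR ∪ FQ) :=
            Finset.insert_subset_insert _ (Finset.union_subset_union_right hE1s)
          rcases hcases _ hpqT with h | h | h
          · -- tail in `X`
            have dXQ2 := Finset.disjoint_of_subset_right hQ2 s.dXQ
            have s' : St p r T D t (X ∪ Q2) R Q1 z b (insert (q, w) (G ∪ E2)) FR E1 k := by
              refine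
                { dXR := ?_
                  dXQ := ?_
                  dRQ := Finset.disjoint_of_subset_right hQ1 s.dRQ
                  union := ?_
                  hG := glue s.hG hE2 dXQ2 h
                  hGP := glue_proper s.hG hE2 dXQ2 h s.hGP (s.hFP.mono (hE2s.trans hFQs))
                    (not_at_of_unused hwG)
                    (not_at_of_unused (fun y hy => hwF y (hFQs (hE2s hy))))
                  hGD := s.hGD.insert_union (s.hFD.mono (hE2s.trans hFQs)) hwD
                  hR := s.hR
                  hQ := hE1
                  hk := s.hk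
                  hFP := s.hFP.mono hsub1
                  hFD := s.hFD.mono hsub1
                  hrk := s.hrk
                  huk := s.huk
                  hX := ?_ }
              · rw [Finset.disjoint_union_left]
                exact ⟨s.dXR, Finset.disjoint_of_subset_left hQ2 s.dRQ.symm⟩
              · rw [Finset.disjoint_union_left]
                exact ⟨Finset.disjoint_of_subset_right hQ1 s.dXQ, hdis.symm⟩
              · rw [← s.union, ← hunion]
                ext a
                simp only [Finset.mem_union]
                tauto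
              · intro j hj hjt
                constructor
                · have hnotQ2 : p j t ∉ Q2 := by
                    intro hh
                    by_cases hjk : j = k
                    · subst hjk
                      rcases s.huk with h' | h'
                      · rw [← h'] at hh
                        exact Finset.disjoint_left.mp hdis hE1.root_mem hh
                      · rw [← h'] at hh
                        exact hRQ s.hk (hQ2 hh)
                    · exact hRQ (alpha j hj hjk hjt) (hQ2 hh)
                  intro hh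
                  rcases Finset.mem_union.mp hh with hh | hh
                  · exact (s.hX j hj hjt).1 hh
                  · exact hnotQ2 hh
                · rintro ⟨y, hy, hyt⟩
                  rw [Finset.mem_insert, Finset.mem_union] at hy
                  rcases hy with hy | hy | hy
                  · apply hjt
                    rw [(Prod.mk.inj hy).2]
                    exact hrw
                  · exact (s.hX j hj hjt).2 ⟨y, hy, hyt⟩
                  · exact hE2.not_at (fun hh => htQ (hQ2 hh)) ⟨y, hy, hyt⟩
            exact hmin _ _ _ _ _ _ _ _ _ s' hlt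
          · -- tail in `R`
            have dRQ2 := Finset.disjoint_of_subset_right hQ2 s.dRQ
            have hsub2 : insert (b, k) (insert (q, w) (FR ∪ E2) ∪ E1) ⊆
                insert (q, w) (insert (b, k) (FR ∪ FQ)) := by
              intro a ha
              simp only [Finset.mem_insert, Finset.mem_union] at ha ⊢
              rcases ha with ha | (ha | ha | ha) | ha
              · exact Or.inr (Or.inl ha)
              · exact Or.inl ha
              · exact Or.inr (Or.inr (Or.inl ha))
              · exact Or.inr (Or.inr (Or.inr (hE2s ha)))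
              · exact Or.inr (Or.inr (Or.inr (hE1s ha)))
            have s' : St p r T D t X (R ∪ Q2) Q1 z b G (insert (q, w) (FR ∪ E2)) E1 k := by
              refine
                { dXR := ?_
                  dXQ := Finset.disjoint_of_subset_right hQ1 s.dXQ
                  dRQ := ?_
                  union := ?_
                  hG := s.hG
                  hGP := s.hGP
                  hGD := s.hGD
                  hR := glue s.hR hE2 dRQ2 h
                  hQ := hE1
                  hk := Finset.mem_union_left _ s.hk
                  hFP := (s.hFP.insert_unused hwF).mono hsub2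
                  hFD := ?_
                  hrk := s.hrk
                  huk := s.huk
                  hX := s.hX }
              · rw [Finset.disjoint_union_right]
                exact ⟨s.dXR, Finset.disjoint_of_subset_right hQ2 s.dXQ⟩
              · rw [Finset.disjoint_union_left]
                exact ⟨Finset.disjoint_of_subset_right hQ1 s.dRQ, hdis.symm⟩
              · rw [← s.union, ← hunion]
                ext a
                simp only [Finset.mem_union]
                tauto
              · intro y i hy
                rcases Finset.mem_insert.mp (hsub2 hy) with h' | h'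
                · rw [(Prod.mk.inj h').2]; exact hwD
                · exact s.hFD h'
            exact hmin _ _ _ _ _ _ _ _ _ s' hlt
          · exact hpq h
      -- (δ)
      have hG1 := glue s.hG s.hQ s.dXQ hwb
      have hFQw : ∀ y, (y, w) ∉ FQ := fun y hy => hwF y (hFQs hy)
      have hG1P := glue_proper s.hG s.hQ s.dXQ hwb s.hGP (s.hFP.mono hFQs)
        (not_at_of_unused hwG) (not_at_of_unused hFQw)
      have hG1D : Col D (insert (b, w) (G ∪ FQ)) :=
        s.hGD.insert_union (s.hFD.mono hFQs) hwD
      have dRXQ : Disjoint R (X ∪ Q) := by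
        rw [Finset.disjoint_union_right]; exact ⟨s.dXR.symm, s.dRQ⟩
      have hRXQ : R ∪ (X ∪ Q) = T := by
        rw [← s.union]
        ext a
        simp only [Finset.mem_union]
        tauto
      have htk : b = p k t := by
        rcases s.huk with h | h
        · exact h
        · exfalso
          refine hno.glue s.hR hG1 dRXQ hRXQ (by rw [← h]; exact s.hk) (s.hFP.mono hFRs) hG1P
            (s.hFD.mono hFRs) hG1D hkD ?_ ?_
          · rintro ⟨y, hy, hyk⟩
            have := At.unique s.hFP (hFRs hy) hyk hkmem hkat
            exact hbR (this ▸ s.hR.head_mem hy)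
          · rintro ⟨y, hy, hyt⟩
            rw [Finset.mem_insert, Finset.mem_union] at hy
            rcases hy with hy | hy | hy
            · exact hwk (Prod.mk.inj hy).2.symm
            · exact (s.hX k hkD s.hrk).2 ⟨y, hy, hyt⟩
            · exact s.hQ.not_at htQ ⟨y, hy, hyt⟩
      -- (ε)
      have hktQ : p k t ∈ Q := htk ▸ hbQ
      have hG2 := glue s.hQ s.hG s.dXQ.symm hktQ
      have hG2P : Proper p (insert (t, k) (FQ ∪ G)) := by
        refine glue_proper s.hQ s.hG s.dXQ.symm hktQ (s.hFP.mono hFQs) s.hGP ?_
          (s.hX k hkD s.hrk).2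
        rintro ⟨y, hy, hyk⟩
        have := At.unique s.hFP (hFQs hy) hyk hkmem hkat
        exact s.hQ.head_ne hy this
      have hG2D : Col D (insert (t, k) (FQ ∪ G)) :=
        (s.hFD.mono hFQs).insert_union s.hGD hkD
      -- (ζ)
      set W' := D \ (G ∪ FQ).image Prod.snd with hW'
      have hW'D : W' ⊆ D := Finset.sdiff_subset
      have hW'G : ∀ j ∈ W', ∀ y, (y, j) ∉ G := fun j hj y hy =>
        (Finset.mem_sdiff.mp hj).2
          (Finset.mem_image.mpr ⟨(y, j), Finset.mem_union_left _ hy, rfl⟩)
      have hW'Q : ∀ j ∈ W', ∀ y, (y, j) ∉ FQ := fun j hj y hy =>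
        (Finset.mem_sdiff.mp hj).2
          (Finset.mem_image.mpr ⟨(y, j), Finset.mem_union_right _ hy, rfl⟩)
      have hW'card : R.card + 1 ≤ W'.card := by
        have g1 := Finset.le_card_sdiff ((G ∪ FQ).image Prod.snd) D
        have g2 : ((G ∪ FQ).image Prod.snd).card ≤ (G ∪ FQ).card := Finset.card_image_le
        have g3 := Finset.card_union_le G FQ
        have g4 := s.hQ.card
        have g5 := s.hG.card
        rw [← hW'] at g1
        omega
      have hFRD : Col D FR := s.hFD.mono hFRs
      have hEcol : ∀ E, Allowed W' FR E → Col D E := fun E hE y i hy =>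
        (hE hy).elim (fun h => hW'D h) (fun h => hFRD h)
      have hnoGood : ¬ Good p R W' FR := by
        rintro ⟨E, v, j, hE, hEP, hEA, hj, hjR, hjv⟩
        have hjD := hW'D hj
        have hvR := hE.root_mem
        have hjT := hcases _ (hDp j hjD v (hRT hvR))
        have hjXQ : p j v ∈ X ∪ Q := by
          rw [Finset.mem_union]
          rcases hjT with h | h | h
          · exact Or.inl h
          · exact absurd h hjR
          · exact Or.inr h
        by_cases hjw : j = w
        · subst hjw
          rw [Finset.union_comm] at hjXQ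
          have dd : Disjoint (Q ∪ X) R := by rw [Finset.union_comm]; exact dRXQ.symm
          have du : (Q ∪ X) ∪ R = T := by rw [Finset.union_comm Q X, Finset.union_comm, hRXQ]
          refine hno.glue hG2 hE dd du hjXQ hG2P hEP hG2D (hEcol E hEA) hjD ?_ hjv
          apply not_at_of_unused
          intro y hy
          rw [Finset.mem_insert, Finset.mem_union] at hy
          rcases hy with hy | hy | hy
          · exact hwk (Prod.mk.inj hy).2
          · exact hFQw y hy
          · exact hwG y hy
        · have du : (X ∪ Q) ∪ R = T := by rw [Finset.union_comm, hRXQ]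
          refine hno.glue hG1 hE dRXQ.symm du hjXQ hG1P hEP hG1D (hEcol E hEA) hjD ?_ hjv
          apply not_at_of_unused
          intro y hy
          rw [Finset.mem_insert, Finset.mem_union] at hy
          rcases hy with hy | hy | hy
          · exact hjw (Prod.mk.inj hy).2
          · exact hW'G j hj y hy
          · exact hW'Q j hj y hy
      have hexR : ∀ j ∈ W'.filter (fun j => j = k ∨ r j ∉ R),
          ∀ j' ∈ W'.filter (fun j => j = k ∨ r j ∉ R), r j ∈ R → r j' ∈ R → j = j' := by
        intro j hj j' hj' h h'
        have h1 := (Finset.mem_filter.mp hj).2.resolve_right (not_not.mpr h)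
        have h2 := (Finset.mem_filter.mp hj').2.resolve_right (not_not.mpr h')
        rw [h1, h2]
      have hcl := closure (G₀ := W'.filter (fun j => j = k ∨ r j ∉ R)) s.hR (s.hFP.mono hFRs)
        hW'card ?_ ?_
      · rcases hcl with h | h
        · exact hnoGood h
        · refine hnoGood (thmA hA _ R W' FR z rfl s.hR (s.hFP.mono hFRs) hW'card ?_)
          intro j hj j' hj' h1 h2
          exact hexR j (h.1 hj) j' (h.1 hj') h1 h2
      · -- critical colours
        intro j hj hjG
        have hjk : j ≠ k := fun h => hjG (Finset.mem_filter.mpr ⟨hj, Or.inl h⟩)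
        have hjR : r j ∈ R := by
          by_contra h
          exact hjG (Finset.mem_filter.mpr ⟨hj, Or.inr h⟩)
        have hjt : r j ≠ t := fun h => htR (h ▸ hjR)
        have hjD := hW'D hj
        refine ⟨p j t, fun E v hE hEP hEA => ?_⟩
        by_contra hat
        refine hno.glue hE hG1 dRXQ hRXQ (alpha j hjD hjk hjt) hEP hG1P (hEcol E hEA) hG1D hjD
          hat ?_
        apply not_at_of_unused
        intro y hy
        rw [Finset.mem_insert, Finset.mem_union] at hy
        rcases hy with hy | hy | hy
        · apply hjt
          rw [(Prod.mk.inj hy).2]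
          exact hrw
        · exact hW'G j hj y hy
        · exact hW'Q j hj y hy
      · intro B W'' E b' hB hW'' hW''G hc hE hEP
        exact thmA hA _ B W'' E b' rfl hE hEP hc (fun j hj j' hj' h h' =>
          hexR j (hW''G hj) j' (hW''G hj') (hB.1 h) (hB.1 h'))
  rintro ⟨X, R, Q, z, b, G, FR, FQ, k, s⟩
  exact key _ X R Q z b G FR FQ k s rfl

/-- The case of one missing vertex. -/
lemma case_one (hA : Enters p r) (hT : T.card ≤ D.card + 1)
    (hDp : ∀ j ∈ D, ∀ y ∈ T, p j y ∈ T) (hno : NoFull p T D) (ht : t ∈ T) {F : Finset (V × C)}
    {z : V} (hF : IsArb p F (T.erase t) z) (hFP : Proper p F) (hFD : Col D F) : False := by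
  classical
  apply no_st (t := t) hA hT hDp hno
  by_cases hC : ∀ j ∈ D, r j = t
  · -- greedy
    exfalso
    let U : Finset (Finset V) := T.powerset.filter
      (fun X => ∃ G, IsArb p G X t ∧ Proper p G ∧ Col D G)
    have hU : U.Nonempty := by
      refine ⟨{t}, Finset.mem_filter.mpr ⟨?_, ∅, isArb_single t, proper_empty, ?_⟩⟩
      · rw [Finset.mem_powerset, Finset.singleton_subset_iff]; exact ht
      · intro y i h; simp at h
    obtain ⟨X, hXU, hmax⟩ := Finset.exists_max_image U Finset.card hU
    obtain ⟨hXT, G, hG, hGP, hGD⟩ := Finset.mem_filter.mp hXU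
    rw [Finset.mem_powerset] at hXT
    by_cases hXeq : X = T
    · subst hXeq
      exact hno G t hG hGP hGD
    have hss : X ⊂ T := Finset.ssubset_iff_subset_ne.mpr ⟨hXT, hXeq⟩
    have hlt := Finset.card_lt_card hss
    obtain ⟨j, hj⟩ : (D \ G.image Prod.snd).Nonempty := by
      rw [← Finset.card_pos]
      have g1 := Finset.le_card_sdiff (G.image Prod.snd) D
      have g2 : (G.image Prod.snd).card ≤ G.card := Finset.card_image_le
      have g3 := hG.card
      omega
    obtain ⟨hjD, hj2⟩ := Finset.mem_sdiff.mp hj
    have hjG : ∀ y, (y, j) ∉ G := fun y hy => hj2 (Finset.mem_image.mpr ⟨(y, j), hy, rfl⟩)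
    obtain ⟨y, hy, hpy⟩ := hA j (T \ X) (Finset.sdiff_nonempty.mpr hss.2)
      (by rw [hC j hjD]; exact fun h => (Finset.mem_sdiff.mp h).2 hG.root_mem)
    obtain ⟨hyT, hyX⟩ := Finset.mem_sdiff.mp hy
    have hpX : p j y ∈ X := by
      by_contra h
      exact hpy (Finset.mem_sdiff.mpr ⟨hDp j hjD y hyT, h⟩)
    have hdis : Disjoint X {y} := by rw [Finset.disjoint_singleton_right]; exact hyX
    have hmem : X ∪ {y} ∈ U := by
      refine Finset.mem_filter.mpr ⟨?_, _, glue hG (isArb_single y) hdis hpX,
        glue_proper hG (isArb_single y) hdis hpX hGP proper_empty (not_at_of_unused hjG)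
          (not_at_of_unused (by simp)), hGD.insert_union (by intro a i h; simp at h) hjD⟩
      rw [Finset.mem_powerset]
      exact Finset.union_subset hXT (Finset.singleton_subset_iff.mpr hyT)
    have := hmax _ hmem
    rw [Finset.card_union_of_disjoint hdis, Finset.card_singleton] at this
    omega
  · push Not at hC
    obtain ⟨k, hkD, hkt⟩ := hC
    have hne : ∀ j ∈ D, r j ≠ t → p j t ≠ t := by
      intro j hj hjt
      obtain ⟨y, hy, hpy⟩ := hA j {t} ⟨t, by simp⟩ (by simpa using hjt)
      rw [Finset.mem_singleton] at hy
      subst hy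
      simpa using hpy
    have hku : p k t ∈ T.erase t := Finset.mem_erase.mpr ⟨hne k hkD hkt, hDp k hkD t ht⟩
    have hdis : Disjoint (T.erase t) {t} := by
      rw [Finset.disjoint_singleton_right]; exact Finset.notMem_erase _ _
    have hun : T.erase t ∪ {t} = T := by
      rw [Finset.union_comm, ← Finset.insert_eq, Finset.insert_erase ht]
    have hat : At p F (p k t) k := by
      by_contra hat
      exact hno.glue hF (isArb_single t) hdis hun hku hFP proper_empty hFD
        (by intro a i h; simp at h) hkD hat (not_at_of_unused (by simp))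
    obtain ⟨b, hbk, hb⟩ := hat
    obtain ⟨R, Q, FR, FQ, c, hd, hu, hR, hQ, hc, hFeq⟩ := hF.cut (hF.head_mem hbk) (hF.head_ne hbk)
    have hck : c = k := hF.uniq (hFeq ▸ Finset.mem_insert_self _ _) hbk
    subst hck
    have hRt : t ∉ R := fun h => Finset.notMem_erase t T (hu ▸ Finset.mem_union_left _ h)
    have hQt : t ∉ Q := fun h => Finset.notMem_erase t T (hu ▸ Finset.mem_union_right _ h)
    refine ⟨{t}, R, Q, z, b, ∅, FR, FQ, c, ?_⟩
    exact
      { dXR := by rw [Finset.disjoint_singleton_left]; exact hRt
        dXQ := by rw [Finset.disjoint_singleton_left]; exact hQt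
        dRQ := hd
        union := by rw [hu, ← Finset.insert_eq, Finset.insert_erase ht]
        hG := isArb_single t
        hGP := proper_empty
        hGD := by intro a i h; simp at h
        hR := hR
        hQ := hQ
        hk := hc
        hFP := hFeq ▸ hFP
        hFD := hFeq ▸ hFD
        hrk := hkt
        huk := hb
        hX := fun j hj hjt =>
          ⟨by rw [Finset.mem_singleton]; exact hne j hj hjt, not_at_of_unused (by simp)⟩ }

/-- The main theorem. -/
theorem main (hA : Enters p r) : ∀ (n : ℕ) (T : Finset V) (D : Finset C), T.card = n →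
    T.Nonempty → T.card ≤ D.card + 1 → (∀ j ∈ D, r j ∈ T) → (∀ j ∈ D, ∀ y ∈ T, p j y ∈ T) →
    ∃ E v, IsArb p E T v ∧ Proper p E ∧ Col D E := by
  classical
  intro n
  induction n using Nat.strong_induction_on with
  | _ n ih =>
    intro T D hn hTne hT hDr hDp
    by_contra hcon
    have hno : NoFull p T D := fun E v h1 h2 h3 => hcon ⟨E, v, h1, h2, h3⟩
    let U : Finset (Finset V) := T.powerset.filter
      (fun X => ∃ G v, IsArb p G X v ∧ Proper p G ∧ Col D G)
    have hU : U.Nonempty := by
      obtain ⟨t, ht⟩ := hTne
      refine ⟨{t}, Finset.mem_filter.mpr ⟨?_, ∅, t, isArb_single t, proper_empty, ?_⟩⟩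
      · rw [Finset.mem_powerset, Finset.singleton_subset_iff]; exact ht
      · intro y i h; simp at h
    obtain ⟨S, hSU, hmax⟩ := Finset.exists_max_image U Finset.card hU
    obtain ⟨hST, F, z, hF, hFP, hFD⟩ := Finset.mem_filter.mp hSU
    rw [Finset.mem_powerset] at hST
    have hSne : S ≠ T := by
      rintro rfl
      exact hno F z hF hFP hFD
    have hss : S ⊂ T := Finset.ssubset_iff_subset_ne.mpr ⟨hST, hSne⟩
    have hTS : (T \ S).Nonempty := Finset.sdiff_nonempty.mpr hss.2
    have hcardTS : (T \ S).card + S.card = T.card := Finset.card_sdiff_add_card_eq_card hST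
    have hScard : 0 < S.card := Finset.card_pos.mpr ⟨z, hF.root_mem⟩
    have hTScard : 0 < (T \ S).card := Finset.card_pos.mpr hTS
    -- maximality
    have hext : ∀ E v, IsArb p E S v → Proper p E → Col D E → ∀ y ∈ T \ S, ∀ j ∈ D,
        p j y ∈ S → At p E (p j y) j := by
      intro E v hE hEP hED y hy j hj hpy
      by_contra hat
      obtain ⟨hyT, hyS⟩ := Finset.mem_sdiff.mp hy
      have hdis : Disjoint S {y} := by rw [Finset.disjoint_singleton_right]; exact hyS
      have hmem : S ∪ {y} ∈ U := by
        refine Finset.mem_filter.mpr ⟨?_, _, _, glue hE (isArb_single y) hdis hpy,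
          glue_proper hE (isArb_single y) hdis hpy hEP proper_empty hat
            (not_at_of_unused (by simp)), hED.insert_union (by intro a i h; simp at h) hj⟩
        rw [Finset.mem_powerset]
        exact Finset.union_subset hST (Finset.singleton_subset_iff.mpr hyT)
      have := hmax _ hmem
      rw [Finset.card_union_of_disjoint hdis, Finset.card_singleton] at this
      omega
    by_cases h1 : (T \ S).card = 1
    · -- one missing vertex
      obtain ⟨t, ht⟩ := Finset.card_eq_one.mp h1
      have htTS : t ∈ T \ S := by rw [ht]; simp
      obtain ⟨htT, htS⟩ := Finset.mem_sdiff.mp htTS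
      have hSeq : S = T.erase t := by
        rw [← Finset.sdiff_singleton_eq_erase, ← ht, Finset.sdiff_sdiff_eq_self hST]
      subst hSeq
      exact case_one hA hT hDp hno htT hF hFP hFD
    · -- at least two missing vertices
      have hcard : S.card + 1 ≤ D.card := by omega
      have hAcol : ∀ E, Allowed D F E → Col D E := fun E hE y i hy =>
        (hE hy).elim id (fun h => hFD h)
      have hGood : Good p S D F := by
        have hcl := closure (G₀ := D.filter (fun j => r j ∉ S)) hF hFP hcard ?_ ?_
        · rcases hcl with h | h
          · exact h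
          · refine thmA hA _ S D F z rfl hF hFP hcard ?_
            intro j hj j' hj' h1 h2
            exact absurd h1 (Finset.mem_filter.mp (h.1 hj)).2
        · intro j hj hjG
          have hjS : r j ∈ S := by
            by_contra h
            exact hjG (Finset.mem_filter.mpr ⟨hj, h⟩)
          obtain ⟨y, hy, hpy⟩ := hA j (T \ S) hTS (fun h => (Finset.mem_sdiff.mp h).2 hjS)
          have hpS : p j y ∈ S := by
            by_contra h
            exact hpy (Finset.mem_sdiff.mpr ⟨hDp j hj y (Finset.mem_sdiff.mp hy).1, h⟩)
          exact ⟨p j y, fun E v hE hEP hEA => hext E v hE hEP (hAcol E hEA) y hy j hj hpS⟩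
        · intro B W'' E b' hB hW'' hW''G hc hE hEP
          refine thmA hA _ B W'' E b' rfl hE hEP hc (fun j hj j' hj' h h' => ?_)
          exact absurd (hB.1 h) (Finset.mem_filter.mp (hW''G hj)).2
      obtain ⟨E, v, j, hE, hEP, hEA, hj, hjS, hjv⟩ := hGood
      have hED := hAcol E hEA
      have hjTS : p j v ∈ T \ S :=
        Finset.mem_sdiff.mpr ⟨hDp j hj v (hST hE.root_mem), hjS⟩
      -- unused colours live on `T \ S`
      have hun : ∀ i ∈ D \ E.image Prod.snd, ∀ y ∈ T \ S, p i y ∈ T \ S := by
        intro i hi y hy
        obtain ⟨hiD, hiE⟩ := Finset.mem_sdiff.mp hi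
        by_contra h
        have hpS : p i y ∈ S := by
          by_contra h'
          exact h (Finset.mem_sdiff.mpr ⟨hDp i hiD y (Finset.mem_sdiff.mp hy).1, h'⟩)
        obtain ⟨x, hx, -⟩ := hext E v hE hEP hED y hy i hiD hpS
        exact hiE (Finset.mem_image.mpr ⟨(x, i), hx, rfl⟩)
      have hunr : ∀ i ∈ D \ E.image Prod.snd, r i ∈ T \ S := by
        intro i hi
        by_contra h
        obtain ⟨y, hy, hpy⟩ := hA i (T \ S) hTS h
        exact hpy (hun i hi y hy)
      obtain ⟨G, g, hG, hGP, hGD⟩ := ih (T \ S).card (by omega) (T \ S)
        ((D \ E.image Prod.snd).erase j) rfl hTS (by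
          have g1 := Finset.le_card_sdiff (E.image Prod.snd) D
          have g2 : (E.image Prod.snd).card ≤ E.card := Finset.card_image_le
          have g3 := hE.card
          have g4 := Finset.pred_card_le_card_erase (s := D \ E.image Prod.snd) (a := j)
          omega)
        (fun i hi => hunr i (Finset.mem_of_mem_erase hi))
        (fun i hi => hun i (Finset.mem_of_mem_erase hi))
      refine hno.glue hG hE Finset.sdiff_disjoint (Finset.sdiff_union_of_subset hST) hjTS hGP hEP
        (fun y i hy => (Finset.mem_sdiff.mp (Finset.mem_of_mem_erase (hGD hy))).1) hED hj ?_ hjv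
      apply not_at_of_unused
      intro y hy
      exact (Finset.mem_erase.mp (hGD hy)).1 rfl

end

end ProperArb
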