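import Pool.Agent.Lib.MP_86bf3a_co.Def
import Pool.Agent.Lib.MP_86bf3a_co.Main

/-!
# From the combinatorial theorem to digraphs
-/

namespace ArborescenceColouring

open ProperArb

variable {V E : Type*}

lemma adj_of_arc {src tgt : E → V} {F : Finset E} {e : E} (he : e ∈ F) (hne : src e ≠ tgt e) :
    (underlying src tgt F).Adj (src e) (tgt e) := by
  rw [underlying, SimpleGraph.fromRel_adj]
  exact ⟨hne, Or.inl ⟨e, he, rfl, rfl⟩⟩

/-- A spanning arborescence enters every nonempty set that does not contain the root. -/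
lemma enters_of_isSpanningArborescence [Fintype V] {src tgt : E → V} {F : Finset E}
    (hconn : (underlying src tgt F).Connected) {r : V} (q : V → V) (hqr : q r = r)
    (hq : ∀ e ∈ F, src e = q (tgt e)) (Y : Finset V) (hY : Y.Nonempty)
    (hrY : r ∉ Y) : ∃ y ∈ Y, q y ∉ Y := by
  by_contra hcon
  push Not at hcon
  have hiter : ∀ v, (∃ n, q^[n] v ∈ Y) ↔ ∃ n, q^[n] (q v) ∈ Y := by
    intro v
    constructor
    · rintro ⟨n, hn⟩
      cases n with
      | zero => exact ⟨0, hcon v hn⟩
      | succ n => exact ⟨n, by simpa [Function.iterate_succ_apply] using hn⟩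
    · rintro ⟨n, hn⟩
      exact ⟨n + 1, by simpa [Function.iterate_succ_apply] using hn⟩
  have hadj : ∀ u v, (underlying src tgt F).Adj u v →
      ((∃ n, q^[n] u ∈ Y) ↔ ∃ n, q^[n] v ∈ Y) := by
    intro u v huv
    rw [underlying, SimpleGraph.fromRel_adj] at huv
    rcases huv.2 with ⟨e, he, h1, h2⟩ | ⟨e, he, h1, h2⟩
    · rw [← h1, ← h2, hq e he]
      exact (hiter _).symm
    · rw [← h1, ← h2, hq e he]
      exact hiter _
  have hwalk : ∀ u v, (underlying src tgt F).Walk u v →
      ((∃ n, q^[n] u ∈ Y) ↔ ∃ n, q^[n] v ∈ Y) := by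
    intro u v w
    induction w with
    | nil => exact Iff.rfl
    | cons h _ ih => exact (hadj _ _ h).trans ih
  obtain ⟨y, hy⟩ := hY
  obtain ⟨w⟩ := hconn.preconnected y r
  obtain ⟨n, hn⟩ := (hwalk y r w).mp ⟨0, hy⟩
  have hfix : ∀ n, q^[n] r = r := by
    intro n
    induction n with
    | zero => rfl
    | succ n ih => rw [Function.iterate_succ_apply, hqr, ih]
  rw [hfix n] at hn
  exact hrY hn

theorem main_digraph [Fintype V] [Fintype E] (src tgt : E → V) (hloop : ∀ e, src e ≠ tgt e)
    (hn : 2 ≤ Fintype.card V) (col : E → Fin (Fintype.card V - 1))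
    (hcol : ∀ i, IsSpanningArborescence src tgt (Finset.univ.filter (fun e => col e = i))) :
    ∃ F : Finset E, IsSpanningArborescence src tgt F ∧ ProperlyColoured src tgt col F := by
  classical
  -- roots and parents
  choose hcard htree r hr huniq using hcol
  have harc : ∀ i v, v ≠ r i → ∃ e, (col e = i ∧ tgt e = v) ∧
      ∀ e', col e' = i → tgt e' = v → e' = e := by
    intro i v hv
    obtain ⟨e, he, heu⟩ := huniq i v hv
    simp only [Finset.mem_filter, Finset.mem_univ, true_and] at he heu
    exact ⟨e, he, fun e' h1 h2 => heu e' ⟨h1, h2⟩⟩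
  have hEne : Nonempty E := by
    have h1 := hcard ⟨0, by omega⟩
    have h2 : 0 < (Finset.univ.filter (fun e => col e = ⟨0, by omega⟩)).card := by omega
    exact ⟨(Finset.card_pos.mp h2).choose⟩
  choose! a ha hau using harc
  let p : Fin (Fintype.card V - 1) → V → V := fun i v => if v = r i then v else src (a i v)
  have hpr : ∀ i, p i (r i) = r i := fun i => by simp [p]
  have hp : ∀ i v, v ≠ r i → p i v = src (a i v) := fun i v h => by simp [p, h]
  have htgt : ∀ e, tgt e ≠ r (col e) := fun e => hr (col e) e (by simp)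
  have hsrc : ∀ e, src e = p (col e) (tgt e) := by
    intro e
    rw [hp _ _ (htgt e)]
    rw [← hau (col e) (tgt e) (htgt e) e rfl rfl]
  have hA : Enters p r := by
    intro i Y hY hrY
    refine enters_of_isSpanningArborescence (htree i).1 (p i) (hpr i) ?_ Y hY hrY
    intro e he
    have : col e = i := by simpa using he
    subst this
    exact hsrc e
  obtain ⟨E', v, hE', hE'P, -⟩ := main hA _ (Finset.univ : Finset V)
    (Finset.univ : Finset (Fin (Fintype.card V - 1))) rfl
    (by rw [← Finset.card_pos, Finset.card_univ]; omega)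
    (by rw [Finset.card_univ, Finset.card_univ, Fintype.card_fin]; omega)
    (fun _ _ => Finset.mem_univ _) (fun _ _ _ _ => Finset.mem_univ _)
  have hne : ∀ {y i}, (y, i) ∈ E' → p i y ≠ y := by
    intro y i hy
    obtain ⟨x, hx, j, hj, hpx⟩ := hE'.enter {y} (Finset.subset_univ _) ⟨y, by simp⟩
      (by simpa using Ne.symm (hE'.head_ne hy))
    rw [Finset.mem_singleton] at hx
    subst hx
    rw [hE'.uniq hy hj]
    simpa using hpx
  have hyr : ∀ {y i}, (y, i) ∈ E' → y ≠ r i := by
    intro y i hy h
    exact hne hy (by rw [h]; exact hpr i)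
  -- the set of arcs
  let F : Finset E := Finset.univ.filter (fun e => (tgt e, col e) ∈ E')
  have hF : ∀ e, e ∈ F ↔ (tgt e, col e) ∈ E' := fun e => by simp [F]
  have hinj : ∀ e ∈ F, ∀ f ∈ F, tgt e = tgt f → e = f := by
    intro e he f hf h
    rw [hF] at he hf
    rw [← h] at hf
    have hc := hE'.uniq he hf
    have h1 := hau (col e) (tgt e) (htgt e) e rfl rfl
    have h2 := hau (col e) (tgt e) (htgt e) f hc.symm h.symm
    rw [h1, h2]
  have hexF : ∀ y i, (y, i) ∈ E' → a i y ∈ F ∧ tgt (a i y) = y ∧ col (a i y) = i := by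
    intro y i hy
    obtain ⟨h1, h2⟩ := ha i y (hyr hy)
    refine ⟨?_, h2, h1⟩
    rw [hF, h1, h2]
    exact hy
  have hFcard : F.card + 1 = Fintype.card V := by
    have h1 : F.image tgt = Finset.univ.erase v := by
      ext y
      rw [Finset.mem_image, Finset.mem_erase]
      constructor
      · rintro ⟨e, he, rfl⟩
        exact ⟨hE'.head_ne ((hF e).mp he), Finset.mem_univ _⟩
      · rintro ⟨hy, -⟩
        obtain ⟨i, hi⟩ := hE'.exists_in (Finset.mem_univ y) hy
        obtain ⟨h1, h2, -⟩ := hexF y i hi
        exact ⟨_, h1, h2⟩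
    have h2 : (F.image tgt).card = F.card :=
      Finset.card_image_of_injOn (fun e he f hf h => hinj e he f hf h)
    rw [h1, Finset.card_erase_of_mem (Finset.mem_univ v), Finset.card_univ] at h2
    omega
  have hconn : (underlying src tgt F).Connected := by
    have hreach : ∀ y, (underlying src tgt F).Reachable v y := by
      by_contra hcon
      push Not at hcon
      obtain ⟨y, hy⟩ := hcon
      obtain ⟨x, hx, i, hi, hpx⟩ := hE'.enter
        (Finset.univ.filter (fun y => ¬ (underlying src tgt F).Reachable v y))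
        (Finset.subset_univ _) ⟨y, by simpa using hy⟩ (by simp)
      obtain ⟨h1, h2, h3⟩ := hexF x i hi
      have h4 := adj_of_arc h1 (hloop _)
      rw [hsrc, h2, h3] at h4
      rw [Finset.mem_filter] at hx hpx
      push Not at hpx
      exact hx.2 ((hpx (Finset.mem_univ _)).trans h4.reachable)
    have : Nonempty V := ⟨v⟩
    exact SimpleGraph.Connected.mk (fun x y => (hreach x).symm.trans (hreach y))
  have hedge : Nat.card (underlying src tgt F).edgeSet ≤ F.card := by
    have hsurj : ((underlying src tgt F).edgeSet : Set (Sym2 V)) ⊆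
        ((F.image (fun e => s(src e, tgt e)) : Finset (Sym2 V)) : Set (Sym2 V)) := by
      intro x
      induction x using Sym2.ind with
      | _ u w =>
        intro huw
        rw [SimpleGraph.mem_edgeSet, underlying, SimpleGraph.fromRel_adj] at huw
        rw [Finset.mem_coe, Finset.mem_image]
        rcases huw.2 with ⟨e, he, h1, h2⟩ | ⟨e, he, h1, h2⟩
        · exact ⟨e, he, by rw [h1, h2]⟩
        · exact ⟨e, he, by rw [h1, h2]; exact Sym2.eq_swap⟩
    have h1 := Set.ncard_le_ncard hsurj (Finset.finite_toSet _)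
    rw [Set.ncard_coe_finset] at h1
    rw [Nat.card_coe_set_eq]
    exact h1.trans Finset.card_image_le
  refine ⟨F, ⟨hFcard, ?_, v, ?_, ?_⟩, ?_⟩
  · rw [SimpleGraph.isTree_iff_connected_and_card]
    refine ⟨hconn, ?_⟩
    have h1 := hconn.card_vert_le_card_edgeSet_add_one
    have h0 : Nat.card V = Fintype.card V := Nat.card_eq_fintype_card
    omega
  · intro e he
    exact hE'.head_ne ((hF e).mp he)
  · intro y hy
    obtain ⟨i, hi⟩ := hE'.exists_in (Finset.mem_univ y) hy
    obtain ⟨h1, h2, -⟩ := hexF y i hi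
    exact ⟨a i y, ⟨h1, h2⟩, fun f hf => hinj f hf.1 _ h1 (hf.2.trans h2.symm)⟩
  · intro e he f hf hef hadj hc
    have he' := (hF e).mp he
    have hf' := (hF f).mp hf
    rw [← hc] at hf'
    have hne' : tgt e ≠ tgt f := fun h => hef (hinj e he f hf h)
    have h1 := hE'P he' hf' hne'
    have h2 := hE'P hf' he' hne'.symm
    have hse := hsrc e
    have hsf := hsrc f
    rw [← hc] at hsf
    rw [← hse, ← hsf] at h1
    rw [← hse, ← hsf] at h2
    rcases hadj with h | h | h | h
    · exact h1.1 h
    · exact h1.2 h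
    · exact h2.2 h.symm
    · exact hne' h

end ArborescenceColouring
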