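import Pool.Agent.Lib.MP_86bf3a_co.Closure

/-!
# The main lemma (Theorem A)
-/

set_option linter.unusedSectionVars false
set_option linter.unusedVariables false

namespace ProperArb

variable {V C : Type*} [DecidableEq V] [DecidableEq C] {p : C → V → V} {r : C → V}

/-- `A_j` enters every nonempty set that does not contain its root. -/
def Enters (p : C → V → V) (r : C → V) : Prop :=
  ∀ j (Y : Finset V), Y.Nonempty → r j ∉ Y → ∃ y ∈ Y, p j y ∉ Y

/-- An arborescence on `Z = R ∪ Q` cut at the arc `(e, c)` entering `e`, the root of the lower part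
`Q`, with an unused colour `u` that enters `e` from outside `Z`. -/
structure State (p : C → V → V) (r : C → V) (Z : Finset V) (W : Finset C) (H : Finset (V × C))
    (R Q : Finset V) (v e : V) (ER EQ : Finset (V × C)) (c u : C) : Prop where
  dis : Disjoint R Q
  union : R ∪ Q = Z
  hR : IsArb p ER R v
  hQ : IsArb p EQ Q e
  hc : p c e ∈ R
  proper : Proper p (insert (e, c) (ER ∪ EQ))
  allowed : Allowed W H (insert (e, c) (ER ∪ EQ))
  huW : u ∈ W
  unused : ∀ y, (y, u) ∉ insert (e, c) (ER ∪ EQ)
  hu : p u e ∉ Z
  hroot : ∀ j ∈ W, r j ∉ Q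

section
variable {Z R Q : Finset V} {W : Finset C} {H ER EQ : Finset (V × C)} {v e : V} {c u : C}

/-- Theorem A for all sets smaller than `Z`. -/
def IHA (p : C → V → V) (r : C → V) (Z : Finset V) : Prop :=
  ∀ Z' W' H' z', Z'.card < Z.card → IsArb p H' Z' z' → Proper p H' → Z'.card + 1 ≤ W'.card →
    (∀ j ∈ W', ∀ j' ∈ W', r j ∈ Z' → r j' ∈ Z' → j = j') → Good p Z' W' H'

namespace State

variable (s : State p r Z W H R Q v e ER EQ c u)
include s

lemma ER_sub : ER ⊆ insert (e, c) (ER ∪ EQ) :=
  Finset.subset_union_left.trans (Finset.subset_insert _ _)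

lemma EQ_sub : EQ ⊆ insert (e, c) (ER ∪ EQ) :=
  Finset.subset_union_right.trans (Finset.subset_insert _ _)

lemma R_sub : R ⊆ Z := s.union ▸ Finset.subset_union_left

lemma Q_sub : Q ⊆ Z := s.union ▸ Finset.subset_union_right

lemma card_union : R.card + Q.card = Z.card := by
  rw [← s.union, Finset.card_union_of_disjoint s.dis]

lemma R_lt : R.card < Z.card := by
  have h1 := s.card_union
  have h2 : 0 < Q.card := Finset.card_pos.mpr ⟨e, s.hQ.root_mem⟩
  omega

lemma not_mem_of {x : V} (hx : x ∉ R) (hx' : x ∉ Q) : x ∉ Z := by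
  rw [← s.union, Finset.mem_union]
  exact fun h => h.elim hx hx'

/-- Apply the induction hypothesis to the upper part. -/
lemma useIH (hIH : IHA p r Z)
    (hex : ∀ j ∈ W, ∀ j' ∈ W, r j ∈ Z → r j' ∈ Z → j = j') {W' : Finset C} (hW' : W' ⊆ W)
    (hcard : R.card + 1 ≤ W'.card) : Good p R W' ER :=
  hIH R W' ER v s.R_lt s.hR (s.proper.mono s.ER_sub) hcard
    (fun j hj j' hj' h h' => hex j (hW' hj) j' (hW' hj') (s.R_sub h) (s.R_sub h'))

/-- The lower part on top: root `e`, the upper part attached below by an arc `(v', j)` whose tail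
is in `Q`. The colour `f` enters `e` from outside. -/
lemma good_of_low {E' : Finset (V × C)} {v' : V} {j f : C} {W' : Finset C} (hW' : W' ⊆ W)
    (h1 : IsArb p E' R v') (h2 : Proper p E') (h3 : Allowed W' ER E') (hj : j ∈ W)
    (hjQ : p j v' ∈ Q) (hjE : ∀ y, (y, j) ∉ EQ) (hjv : ¬ At p E' v' j) (hf : f ∈ W)
    (hfj : f ≠ j) (hfZ : p f e ∉ Z) (hfE : ∀ y, (y, f) ∉ EQ) : Good p Z W H := by
  have hg := glue s.hQ h1 s.dis.symm hjQ
  rw [Finset.union_comm Q R, s.union] at hg
  refine ⟨_, e, f, hg, glue_proper s.hQ h1 s.dis.symm hjQ (s.proper.mono s.EQ_sub) h2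
    (not_at_of_unused hjE) hjv, ?_, hf, hfZ, ?_⟩
  · intro y i hy
    rw [Finset.mem_insert, Finset.mem_union] at hy
    rcases hy with hy | hy | hy
    · rw [(Prod.mk.inj hy).2]; exact Or.inl hj
    · exact s.allowed (s.EQ_sub hy)
    · rcases h3 hy with h | h
      · exact Or.inl (hW' h)
      · exact s.allowed (s.ER_sub h)
  · rintro ⟨y, hy, hye⟩
    rw [Finset.mem_insert, Finset.mem_union] at hy
    rcases hy with hy | hy | hy
    · exact hfj (Prod.mk.inj hy).2
    · exact hfE _ hy
    · rcases hye with hye | hye
      · exact Finset.disjoint_left.mp s.dis (h1.head_mem hy) (hye ▸ s.hQ.root_mem)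
      · exact Finset.disjoint_left.mp s.dis (h1.tail_mem hy) (hye ▸ s.hQ.root_mem)

/-- The upper part on top: root `v'`, the lower part (with arcs `EQ'`) attached by the arc
`(e, c')`. -/
lemma good_of_top {E' EQ' : Finset (V × C)} {v' : V} {j c' : C} {W' : Finset C} (hW' : W' ⊆ W)
    (h1 : IsArb p E' R v') (h2 : Proper p E') (h3 : Allowed W' ER E') (hj : j ∈ W)
    (hjR : p j v' ∉ R) (hjQ : p j v' ∉ Q) (hjv : ¬ At p E' v' j)
    (q1 : IsArb p EQ' Q e) (q2 : Proper p EQ') (q3 : Allowed W H EQ')
    (hc'R : p c' e ∈ R) (hc'E' : ¬ At p E' (p c' e) c') (hc'Q : ¬ At p EQ' e c')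
    (hjc' : j ≠ c') (hc'A : c' ∈ W ∨ (e, c') ∈ H) : Good p Z W H := by
  have hg := glue h1 q1 s.dis hc'R
  rw [s.union] at hg
  refine ⟨_, v', j, hg, glue_proper h1 q1 s.dis hc'R h2 q2 hc'E' hc'Q, ?_, hj,
    s.not_mem_of hjR hjQ, ?_⟩
  · intro y i hy
    rw [Finset.mem_insert, Finset.mem_union] at hy
    rcases hy with hy | hy | hy
    · rw [(Prod.mk.inj hy).1, (Prod.mk.inj hy).2]; exact hc'A
    · rcases h3 hy with h | h
      · exact Or.inl (hW' h)
      · exact s.allowed (s.ER_sub h)
    · exact q3 hy
  · rintro ⟨y, hy, hye⟩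
    rw [Finset.mem_insert, Finset.mem_union] at hy
    rcases hy with hy | hy | hy
    · exact hjc' (Prod.mk.inj hy).2
    · exact hjv ⟨y, hy, hye⟩
    · rcases hye with hye | hye
      · exact Finset.disjoint_left.mp s.dis h1.root_mem (hye ▸ q1.head_mem hy)
      · exact Finset.disjoint_left.mp s.dis h1.root_mem (hye ▸ q1.tail_mem hy)

/-- Link by the original colour `c`. -/
lemma good_of_top_c {E' : Finset (V × C)} {v' : V} {j : C} {W' : Finset C} (hW' : W' ⊆ W)
    (hcW' : c ∉ W') (h1 : IsArb p E' R v') (h2 : Proper p E') (h3 : Allowed W' ER E')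
    (hj : j ∈ W') (hjR : p j v' ∉ R) (hjQ : p j v' ∉ Q) (hjv : ¬ At p E' v' j) :
    Good p Z W H := by
  refine s.good_of_top hW' h1 h2 h3 (hW' hj) hjR hjQ hjv s.hQ (s.proper.mono s.EQ_sub)
    (fun y i hy => s.allowed (s.EQ_sub hy)) s.hc ?_ ?_ (fun h => hcW' (h ▸ hj))
    (s.allowed (Finset.mem_insert_self _ _))
  · rintro ⟨y, hy, hye⟩
    rcases h3 hy with h | h
    · exact hcW' h
    · have := At.unique s.proper (s.ER_sub h) hye (Finset.mem_insert_self _ _) (Or.inr rfl)
      exact Finset.disjoint_left.mp s.dis (h1.head_mem hy) (this ▸ s.hQ.root_mem)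
  · rintro ⟨y, hy, hye⟩
    have := At.unique s.proper (s.EQ_sub hy) hye (Finset.mem_insert_self _ _) (Or.inl rfl)
    exact s.hQ.head_ne hy this

/-- Fact 1. -/
lemma fact1 (hIH : IHA p r Z) (hex : ∀ j ∈ W, ∀ j' ∈ W, r j ∈ Z → r j' ∈ Z → j = j')
    (hcard : Z.card + 1 ≤ W.card) (hG : ¬ Good p Z W H) {d : C} (hd : d ∈ W) (hdu : d ≠ u)
    (hdc : d ≠ c) (hdQ : ∀ y, (y, d) ∉ EQ) : p d e ∈ Z := by
  by_contra hdZ
  have hW' : (W \ EQ.image Prod.snd).erase c ⊆ W :=
    (Finset.erase_subset _ _).trans Finset.sdiff_subset
  have hcard' : R.card + 1 ≤ ((W \ EQ.image Prod.snd).erase c).card := by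
    have h1 := s.card_union
    have h2 := s.hQ.card
    have h3 : (EQ.image Prod.snd).card ≤ EQ.card := Finset.card_image_le
    have h4 := Finset.le_card_sdiff (EQ.image Prod.snd) W
    have h5 := Finset.pred_card_le_card_erase (s := W \ EQ.image Prod.snd) (a := c)
    omega
  obtain ⟨E', v', j, h1, h2, h3, hj, hjR, hjv⟩ := s.useIH hIH hex hW' hcard'
  have hjW := hW' hj
  have hjE : ∀ y, (y, j) ∉ EQ := by
    intro y hy
    exact (Finset.mem_sdiff.mp (Finset.mem_of_mem_erase hj)).2
      (Finset.mem_image.mpr ⟨(y, j), hy, rfl⟩)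
  by_cases hjQ : p j v' ∈ Q
  · by_cases hju : j = u
    · subst hju
      exact hG (s.good_of_low hW' h1 h2 h3 hjW hjQ hjE hjv hd hdu hdZ hdQ)
    · exact hG (s.good_of_low hW' h1 h2 h3 hjW hjQ hjE hjv s.huW (Ne.symm hju) s.hu
        (fun y hy => s.unused y (s.EQ_sub hy)))
  · exact hG (s.good_of_top_c hW' (Finset.notMem_erase _ _) h1 h2 h3 hj hjR hjQ hjv)

end State

/-- Fact 2: an unused colour `d ≠ u` enters `Q` only at `e`, from `R`. -/
lemma State.fact2 (hA : Enters p r) (s : State p r Z W H R Q v e ER EQ c u) (hIH : IHA p r Z)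
    (hex : ∀ j ∈ W, ∀ j' ∈ W, r j ∈ Z → r j' ∈ Z → j = j')
    (hcard : Z.card + 1 ≤ W.card) (hG : ¬ Good p Z W H)
    (hmin : ∀ R' Q' v' e' ER' EQ' c' u', State p r Z W H R' Q' v' e' ER' EQ' c' u' →
      Q.card ≤ Q'.card) {d : C} (hd : d ∈ W) (hdu : d ≠ u)
    (hdE : ∀ y, (y, d) ∉ insert (e, c) (ER ∪ EQ)) :
    p d e ∈ R ∧ ∀ y ∈ Q, y ≠ e → p d y ∈ Q := by
  have hmain : ∀ y ∈ Q, y ≠ e → p d y ∈ Q := by
    intro y hy hye
    by_contra hyQ
    obtain ⟨Q1, Q2, E1, E2, c1, hdis, hunion, hE1, hE2, hc1, hEQ⟩ := s.hQ.cut hy hye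
    have hQ1 : Q1 ⊆ Q := hunion ▸ Finset.subset_union_left
    have hQ2 : Q2 ⊆ Q := hunion ▸ Finset.subset_union_right
    have hE1s : E1 ⊆ EQ := by
      rw [hEQ]; exact (Finset.subset_union_left).trans (Finset.subset_insert _ _)
    have hE2s : E2 ⊆ EQ := by
      rw [hEQ]; exact (Finset.subset_union_right).trans (Finset.subset_insert _ _)
    have hcardQ : Q1.card + Q2.card = Q.card := by
      rw [← hunion, Finset.card_union_of_disjoint hdis]
    have hQ1pos : 0 < Q1.card := Finset.card_pos.mpr ⟨e, hE1.root_mem⟩
    have hQ2pos : 0 < Q2.card := Finset.card_pos.mpr ⟨y, hE2.root_mem⟩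
    have hRQ1 : Disjoint R Q1 := Finset.disjoint_of_subset_right hQ1 s.dis
    have hRQ2 : Disjoint R Q2 := Finset.disjoint_of_subset_right hQ2 s.dis
    by_cases hyR : p d y ∈ R
    · -- move `Q2` to `R`
      have hsub : insert (e, c) (insert (y, d) (ER ∪ E2) ∪ E1) ⊆
          insert (y, d) (insert (e, c) (ER ∪ EQ)) := by
        intro a ha
        simp only [Finset.mem_insert, Finset.mem_union] at ha ⊢
        rcases ha with ha | (ha | ha | ha) | ha
        · exact Or.inr (Or.inl ha)
        · exact Or.inl ha
        · exact Or.inr (Or.inr (Or.inl ha))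
        · exact Or.inr (Or.inr (Or.inr (hE2s ha)))
        · exact Or.inr (Or.inr (Or.inr (hE1s ha)))
      have hs : State p r Z W H (R ∪ Q2) Q1 v e (insert (y, d) (ER ∪ E2)) E1 c u := by
        refine
          { dis := ?_
            union := ?_
            hR := glue s.hR hE2 hRQ2 hyR
            hQ := hE1
            hc := Finset.mem_union_left _ s.hc
            proper := (s.proper.insert_unused hdE).mono hsub
            allowed := ?_
            huW := s.huW
            unused := ?_
            hu := s.hu
            hroot := fun j hj h => s.hroot j hj (hQ1 h) }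
        · rw [Finset.disjoint_union_left]
          exact ⟨hRQ1, hdis.symm⟩
        · rw [Finset.union_assoc, Finset.union_comm Q2 Q1, hunion, s.union]
        · intro w i hw
          rcases Finset.mem_insert.mp (hsub hw) with h | h
          · rw [(Prod.mk.inj h).2]; exact Or.inl hd
          · exact s.allowed h
        · intro w hw
          rcases Finset.mem_insert.mp (hsub hw) with h | h
          · exact hdu (Prod.mk.inj h).2.symm
          · exact s.unused w h
      have := hmin _ _ _ _ _ _ _ _ hs
      omega
    · -- `y` is the new entry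
      have heq : insert (y, c1) (insert (e, c) (ER ∪ E1) ∪ E2) = insert (e, c) (ER ∪ EQ) := by
        rw [hEQ]
        ext a
        simp only [Finset.mem_insert, Finset.mem_union]
        tauto
      have hs : State p r Z W H (R ∪ Q1) Q2 v y (insert (e, c) (ER ∪ E1)) E2 c1 d := by
        refine
          { dis := ?_
            union := ?_
            hR := glue s.hR hE1 hRQ1 s.hc
            hQ := hE2
            hc := Finset.mem_union_right _ hc1
            proper := heq ▸ s.proper
            allowed := heq ▸ s.allowed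
            huW := hd
            unused := heq ▸ hdE
            hu := s.not_mem_of hyR hyQ
            hroot := fun j hj h => s.hroot j hj (hQ2 h) }
        · rw [Finset.disjoint_union_left]
          exact ⟨hRQ2, hdis⟩
        · rw [Finset.union_assoc, hunion, s.union]
      have := hmin _ _ _ _ _ _ _ _ hs
      omega
  refine ⟨?_, hmain⟩
  obtain ⟨y, hy, hpy⟩ := hA d Q ⟨e, s.hQ.root_mem⟩ (s.hroot d hd)
  have hye : y = e := by
    by_contra hye
    exact hpy (hmain y hy hye)
  subst hye
  have hZ := s.fact1 hIH hex hcard hG hd hdu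
    (fun h => hdE y (h ▸ Finset.mem_insert_self _ _)) (fun w hw => hdE w (s.EQ_sub hw))
  rw [← s.union, Finset.mem_union] at hZ
  exact hZ.resolve_right hpy

/-- No state exists. -/
lemma no_state (hA : Enters p r) (hIH : IHA p r Z)
    (hex : ∀ j ∈ W, ∀ j' ∈ W, r j ∈ Z → r j' ∈ Z → j = j')
    (hcard : Z.card + 1 ≤ W.card) (hG : ¬ Good p Z W H) :
    ¬ ∃ R Q v e ER EQ c u, State p r Z W H R Q v e ER EQ c u := by
  classical
  -- the measure
  let unusedCard : Finset (V × C) → ℕ := fun E => (W \ E.image Prod.snd).card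
  have key : ∀ N, ∀ R Q v e ER EQ c u, State p r Z W H R Q v e ER EQ c u →
      Q.card * (W.card + 1) + unusedCard (insert (e, c) (ER ∪ EQ)) = N → False := by
    intro N
    induction N using Nat.strong_induction_on with
    | _ N ih =>
      intro R Q v e ER EQ c u s hN
      have hle : ∀ E, unusedCard E ≤ W.card := fun E => Finset.card_le_card Finset.sdiff_subset
      have hmin : ∀ R' Q' v' e' ER' EQ' c' u', State p r Z W H R' Q' v' e' ER' EQ' c' u' →
          Q.card ≤ Q'.card := by
        intro R' Q' v' e' ER' EQ' c' u' s'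
        by_contra hlt
        rw [not_le] at hlt
        refine ih _ ?_ R' Q' v' e' ER' EQ' c' u' s' rfl
        have h1 := hle (insert (e', c') (ER' ∪ EQ'))
        have h2 : (Q'.card + 1) * (W.card + 1) ≤ Q.card * (W.card + 1) :=
          Nat.mul_le_mul_right _ hlt
        have h3 : (Q'.card + 1) * (W.card + 1) = Q'.card * (W.card + 1) + (W.card + 1) := by ring
        omega
      -- an unused colour `d ≠ u`
      have hEcard : (insert (e, c) (ER ∪ EQ)).card ≤ Z.card - 1 := by
        have h1 := (glue s.hR s.hQ s.dis s.hc).card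
        rw [s.union] at h1
        omega
      have hZpos : 0 < Z.card := Finset.card_pos.mpr ⟨e, s.Q_sub s.hQ.root_mem⟩
      obtain ⟨d, hd⟩ : ((W \ (insert (e, c) (ER ∪ EQ)).image Prod.snd).erase u).Nonempty := by
        rw [← Finset.card_pos]
        have h1 := Finset.pred_card_le_card_erase
          (s := W \ (insert (e, c) (ER ∪ EQ)).image Prod.snd) (a := u)
        have h2 := Finset.le_card_sdiff ((insert (e, c) (ER ∪ EQ)).image Prod.snd) W
        have h3 : ((insert (e, c) (ER ∪ EQ)).image Prod.snd).card ≤
          (insert (e, c) (ER ∪ EQ)).card := Finset.card_image_le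
        omega
      obtain ⟨hdu, hd2⟩ := Finset.mem_erase.mp hd
      obtain ⟨hdW, hdE'⟩ := Finset.mem_sdiff.mp hd2
      have hdE : ∀ y, (y, d) ∉ insert (e, c) (ER ∪ EQ) :=
        fun y hy => hdE' (Finset.mem_image.mpr ⟨(y, d), hy, rfl⟩)
      obtain ⟨hdR, hdQ⟩ := s.fact2 hA hIH hex hcard hG hmin hdW hdu hdE
      have hQcard := s.hQ.card
      have hRcard := s.hR.card
      have hRQ := s.card_union
      have huQ : ∀ y, (y, u) ∉ EQ := fun y hy => s.unused y (s.EQ_sub hy)
      by_cases hQ1 : Q.card = 1
      · -- `Q = {e}`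
        have hEQe : EQ = ∅ := by
          rw [← Finset.card_eq_zero]; omega
        have hQe : Q = {e} := by
          obtain ⟨x, hx⟩ := Finset.card_eq_one.mp hQ1
          have := s.hQ.root_mem
          rw [hx, Finset.mem_singleton] at this
          rw [hx, this]
        have hW' : W.erase u ⊆ W := Finset.erase_subset _ _
        have hcard' : R.card + 1 ≤ (W.erase u).card := by
          have := Finset.pred_card_le_card_erase (s := W) (a := u)
          omega
        obtain ⟨E', v', j, h1, h2, h3, hj, hjR, hjv⟩ := s.useIH hIH hex hW' hcard'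
        obtain ⟨hju, hjW⟩ := Finset.mem_erase.mp hj
        have hjE : ∀ y, (y, j) ∉ EQ := by rw [hEQe]; simp
        by_cases hjQ : p j v' ∈ Q
        · exact hG (s.good_of_low hW' h1 h2 h3 hjW hjQ hjE hjv s.huW (Ne.symm hju) s.hu huQ)
        · obtain ⟨d', hd'⟩ : (((W \ E'.image Prod.snd).erase u).erase j).Nonempty := by
            rw [← Finset.card_pos]
            have g1 := Finset.pred_card_le_card_erase
              (s := (W \ E'.image Prod.snd).erase u) (a := j)
            have g2 := Finset.pred_card_le_card_erase (s := W \ E'.image Prod.snd) (a := u)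
            have g3 := Finset.le_card_sdiff (E'.image Prod.snd) W
            have g4 : (E'.image Prod.snd).card ≤ E'.card := Finset.card_image_le
            have g5 := h1.card
            omega
          obtain ⟨hd'j, hd'2⟩ := Finset.mem_erase.mp hd'
          obtain ⟨hd'u, hd'3⟩ := Finset.mem_erase.mp hd'2
          obtain ⟨hd'W, hd'E⟩ := Finset.mem_sdiff.mp hd'3
          have hd'R : p d' e ∈ R := by
            by_cases hd'c : d' = c
            · rw [hd'c]; exact s.hc
            · have h4 := s.fact1 hIH hex hcard hG hd'W hd'u hd'c (by rw [hEQe]; simp)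
              have h5 : p d' e ∉ Q := by
                obtain ⟨y, hy, hpy⟩ := hA d' Q ⟨e, s.hQ.root_mem⟩ (s.hroot d' hd'W)
                rw [hQe, Finset.mem_singleton] at hy
                rw [← hy]
                exact hpy
              rw [← s.union, Finset.mem_union] at h4
              exact h4.resolve_right h5
          have hd'unused : ∀ y, (y, d') ∉ E' :=
            fun y hy => hd'E (Finset.mem_image.mpr ⟨(y, d'), hy, rfl⟩)
          exact hG (s.good_of_top hW' h1 h2 h3 hjW hjR hjQ hjv s.hQ (s.proper.mono s.EQ_sub)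
            (fun y i hy => s.allowed (s.EQ_sub hy)) hd'R (not_at_of_unused hd'unused)
            (by rw [hEQe]; exact not_at_of_unused (by simp)) (Ne.symm hd'j) (Or.inl hd'W))
      · have hQpos : 0 < Q.card := Finset.card_pos.mpr ⟨e, s.hQ.root_mem⟩
        have hQ2 : 2 ≤ Q.card := by omega
        by_cases hK : (W ∩ EQ.image Prod.snd).card + 2 ≤ Q.card
        · -- few colours on `Q`
          have hW' : ((W \ EQ.image Prod.snd).erase u).erase c ⊆ W :=
            (Finset.erase_subset _ _).trans ((Finset.erase_subset _ _).trans Finset.sdiff_subset)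
          have hcard' : R.card + 1 ≤ (((W \ EQ.image Prod.snd).erase u).erase c).card := by
            have g1 := Finset.pred_card_le_card_erase
              (s := (W \ EQ.image Prod.snd).erase u) (a := c)
            have g2 := Finset.pred_card_le_card_erase (s := W \ EQ.image Prod.snd) (a := u)
            have g3 := Finset.card_sdiff_add_card_inter W (EQ.image Prod.snd)
            omega
          obtain ⟨E', v', j, h1, h2, h3, hj, hjR, hjv⟩ := s.useIH hIH hex hW' hcard'
          have hjW := hW' hj
          have hju : j ≠ u := (Finset.mem_erase.mp (Finset.mem_of_mem_erase hj)).1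
          have hjE : ∀ y, (y, j) ∉ EQ := by
            intro y hy
            exact (Finset.mem_sdiff.mp (Finset.mem_of_mem_erase (Finset.mem_of_mem_erase hj))).2
              (Finset.mem_image.mpr ⟨(y, j), hy, rfl⟩)
          by_cases hjQ : p j v' ∈ Q
          · exact hG (s.good_of_low hW' h1 h2 h3 hjW hjQ hjE hjv s.huW (Ne.symm hju) s.hu huQ)
          · exact hG (s.good_of_top_c hW' (Finset.notMem_erase _ _) h1 h2 h3 hj hjR hjQ hjv)
        · -- `EQ` is rainbow with all colours in `W`
          obtain ⟨q, hq, hpq⟩ := hA d (Q.erase e)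
            (by rw [← Finset.card_pos, Finset.card_erase_of_mem s.hQ.root_mem]; omega)
            (fun h => s.hroot d hdW (Finset.mem_of_mem_erase h))
          obtain ⟨hqe, hqQ⟩ := Finset.mem_erase.mp hq
          have hpqe : p d q = e := by
            by_contra h
            exact hpq (Finset.mem_erase.mpr ⟨h, hdQ q hqQ hqe⟩)
          obtain ⟨Q1, Q2, E1, E2, c', hdis, hunion, hE1, hE2, hc', hEQ⟩ := s.hQ.cut hqQ hqe
          have hE1s : E1 ⊆ EQ := by
            rw [hEQ]; exact (Finset.subset_union_left).trans (Finset.subset_insert _ _)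
          have hE2s : E2 ⊆ EQ := by
            rw [hEQ]; exact (Finset.subset_union_right).trans (Finset.subset_insert _ _)
          have hqc' : (q, c') ∈ EQ := by rw [hEQ]; exact Finset.mem_insert_self _ _
          -- colours of `EQ`
          have himg : (EQ.image Prod.snd).card ≤ EQ.card := Finset.card_image_le
          have hinter : (W ∩ EQ.image Prod.snd).card ≤ (EQ.image Prod.snd).card :=
            Finset.card_le_card Finset.inter_subset_right
          have hWK : W ∩ EQ.image Prod.snd = EQ.image Prod.snd :=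
            Finset.eq_of_subset_of_card_le Finset.inter_subset_right (by omega)
          have hc'img : c' ∈ EQ.image Prod.snd := Finset.mem_image.mpr ⟨(q, c'), hqc', rfl⟩
          have hc'W : c' ∈ W := by
            rw [← hWK] at hc'img
            exact (Finset.mem_inter.mp hc'img).1
          have hc'u : c' ≠ u := fun h => huQ q (h ▸ hqc')
          -- the new state
          have hEQ'' : IsArb p (insert (q, d) (E1 ∪ E2)) Q e := by
            have := glue hE1 hE2 hdis (j := d) (by rw [hpqe]; exact hE1.root_mem)
            rwa [hunion] at this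
          have hsub : insert (e, c) (ER ∪ insert (q, d) (E1 ∪ E2)) ⊆
              insert (q, d) (insert (e, c) (ER ∪ EQ)) := by
            intro a ha
            simp only [Finset.mem_insert, Finset.mem_union] at ha ⊢
            rcases ha with ha | ha | ha | ha | ha
            · exact Or.inr (Or.inl ha)
            · exact Or.inr (Or.inr (Or.inl ha))
            · exact Or.inl ha
            · exact Or.inr (Or.inr (Or.inr (hE1s ha)))
            · exact Or.inr (Or.inr (Or.inr (hE2s ha)))
          have s'' : State p r Z W H R Q v e ER (insert (q, d) (E1 ∪ E2)) c u := by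
            refine
              { dis := s.dis
                union := s.union
                hR := s.hR
                hQ := hEQ''
                hc := s.hc
                proper := (s.proper.insert_unused hdE).mono hsub
                allowed := ?_
                huW := s.huW
                unused := ?_
                hu := s.hu
                hroot := s.hroot }
            · intro w i hw
              rcases Finset.mem_insert.mp (hsub hw) with h | h
              · rw [(Prod.mk.inj h).2]; exact Or.inl hdW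
              · exact s.allowed h
            · intro w hw
              rcases Finset.mem_insert.mp (hsub hw) with h | h
              · exact hdu (Prod.mk.inj h).2.symm
              · exact s.unused w h
          have hc'unused : ∀ y, (y, c') ∉ insert (e, c) (ER ∪ insert (q, d) (E1 ∪ E2)) := by
            intro y hy
            refine ih _ ?_ _ _ _ _ _ _ _ _ s'' rfl
            have hlt : unusedCard (insert (e, c) (ER ∪ insert (q, d) (E1 ∪ E2))) <
                unusedCard (insert (e, c) (ER ∪ EQ)) := by
              apply Finset.card_lt_card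
              rw [Finset.ssubset_iff_of_subset]
              · refine ⟨d, hd2, fun h => (Finset.mem_sdiff.mp h).2 ?_⟩
                refine Finset.mem_image.mpr ⟨(q, d), ?_, rfl⟩
                simp
              · intro i hi
                obtain ⟨hiW, hi2⟩ := Finset.mem_sdiff.mp hi
                refine Finset.mem_sdiff.mpr ⟨hiW, fun h => hi2 ?_⟩
                obtain ⟨⟨w, i'⟩, hw, hwi⟩ := Finset.mem_image.mp h
                simp only at hwi
                subst hwi
                rw [hEQ] at hw
                simp only [Finset.mem_insert, Finset.mem_union] at hw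
                rw [Finset.mem_image]
                rcases hw with hw | hw | hw | hw | hw
                · exact ⟨(w, i'), by simp [hw], rfl⟩
                · exact ⟨(w, i'), by simp [hw], rfl⟩
                · obtain ⟨rfl, rfl⟩ := Prod.mk.inj hw
                  exact ⟨(y, i'), hy, rfl⟩
                · exact ⟨(w, i'), by simp [hw], rfl⟩
                · exact ⟨(w, i'), by simp [hw], rfl⟩
            omega
          obtain ⟨hc'R, -⟩ := s''.fact2 hA hIH hex hcard hG hmin hc'W hc'u hc'unused
          have hW' : (W \ EQ.image Prod.snd).erase u ⊆ W :=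
            (Finset.erase_subset _ _).trans Finset.sdiff_subset
          have hcard' : R.card + 1 ≤ ((W \ EQ.image Prod.snd).erase u).card := by
            have g2 := Finset.pred_card_le_card_erase (s := W \ EQ.image Prod.snd) (a := u)
            have g3 := Finset.le_card_sdiff (EQ.image Prod.snd) W
            omega
          obtain ⟨E', v', j, h1, h2, h3, hj, hjR, hjv⟩ := s.useIH hIH hex hW' hcard'
          have hjW := hW' hj
          have hju : j ≠ u := (Finset.mem_erase.mp hj).1
          have hjE : ∀ y, (y, j) ∉ EQ := by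
            intro y hy
            exact (Finset.mem_sdiff.mp (Finset.mem_of_mem_erase hj)).2
              (Finset.mem_image.mpr ⟨(y, j), hy, rfl⟩)
          by_cases hjQ : p j v' ∈ Q
          · exact hG (s.good_of_low hW' h1 h2 h3 hjW hjQ hjE hjv s.huW (Ne.symm hju) s.hu huQ)
          · refine hG (s.good_of_top hW' h1 h2 h3 hjW hjR hjQ hjv hEQ''
              (s''.proper.mono s''.EQ_sub) (fun y i hy => s''.allowed (s''.EQ_sub hy)) hc'R ?_
              (not_at_of_unused (fun y hy => hc'unused y (s''.EQ_sub hy)))
              (fun h => hjE q (h ▸ hqc')) (Or.inl hc'W))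
            apply not_at_of_unused
            intro y hy
            rcases h3 hy with h | h
            · exact (Finset.mem_sdiff.mp (Finset.mem_of_mem_erase h)).2 hc'img
            · exact hc'unused y (s''.ER_sub h)
  rintro ⟨R, Q, v, e, ER, EQ, c, u, s⟩
  exact key _ R Q v e ER EQ c u s rfl

/-- A state from an arborescence. -/
lemma exists_state {E : Finset (V × C)} (hE : IsArb p E Z v) (hP : Proper p E)
    (hEA : Allowed W H E) (hG : ¬ Good p Z W H) (huW : u ∈ W) (hu : ∀ y, (y, u) ∉ E)
    (he : e ∈ Z) (hue : p u e ∉ Z) (hr : ∀ j ∈ W, r j ∈ Z → r j = v) :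
    ∃ R Q v e ER EQ c u, State p r Z W H R Q v e ER EQ c u := by
  have hev : e ≠ v := by
    rintro rfl
    exact hG ⟨E, e, u, hE, hP, hEA, huW, hue, not_at_of_unused hu⟩
  obtain ⟨R, Q, ER, EQ, c, hdis, hunion, hR, hQ, hc, hEeq⟩ := hE.cut he hev
  refine ⟨R, Q, v, e, ER, EQ, c, u, ⟨hdis, hunion, hR, hQ, hc, hEeq ▸ hP, hEeq ▸ hEA, huW,
    hEeq ▸ hu, hue, ?_⟩⟩
  intro j hj hjQ
  have := hr j hj (hunion ▸ Finset.mem_union_right _ hjQ)
  rw [this] at hjQ
  exact Finset.disjoint_left.mp hdis hR.root_mem hjQ

/-- Theorem A. -/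
theorem thmA (hA : Enters p r) : ∀ (n : ℕ) (Z : Finset V) (W : Finset C) (H : Finset (V × C))
    (z : V), Z.card = n → IsArb p H Z z → Proper p H → Z.card + 1 ≤ W.card →
    (∀ j ∈ W, ∀ j' ∈ W, r j ∈ Z → r j' ∈ Z → j = j') → Good p Z W H := by
  intro n
  induction n using Nat.strong_induction_on with
  | _ n ih =>
    intro Z W H z hn hH hP hcard hex
    by_contra hG
    have hIH : IHA p r Z := fun Z' W' H' z' h1 h2 h3 h4 h5 =>
      ih Z'.card (hn ▸ h1) Z' W' H' z' rfl h2 h3 h4 h5
    apply no_state hA hIH hex hcard hG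
    have hZne : Z.Nonempty := ⟨z, hH.root_mem⟩
    by_cases hk : ∃ k ∈ W, r k ∈ Z
    · obtain ⟨k, hkW, hkZ⟩ := hk
      rcases closure (G₀ := W) hH hP hcard (fun j hj hj' => absurd hj hj')
        (fun B W' E b hB hW' _ hc hE hEP => hIH B W' E b (Finset.card_lt_card hB) hE hEP hc
          (fun j hj j' hj' h h' => hex j (hW' hj) j' (hW' hj') (hB.1 h) (hB.1 h'))) with h | h
      · exact absurd h hG
      · obtain ⟨E, hE, hEP, hEA⟩ := h.2 (r k) hkZ
        rw [Finset.inter_self] at hEA
        obtain ⟨u, hu⟩ : ((W.erase k) \ E.image Prod.snd).Nonempty := by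
          rw [← Finset.card_pos]
          have g1 := Finset.le_card_sdiff (E.image Prod.snd) (W.erase k)
          have g2 : (E.image Prod.snd).card ≤ E.card := Finset.card_image_le
          have g3 := hE.card
          have g4 := Finset.card_erase_of_mem hkW
          omega
        obtain ⟨huk, hu2⟩ := Finset.mem_sdiff.mp hu
        obtain ⟨huk, huW⟩ := Finset.mem_erase.mp huk
        have huZ : r u ∉ Z := fun h => huk (hex u huW k hkW h hkZ)
        obtain ⟨e, he, hpe⟩ := hA u Z hZne huZ
        exact exists_state hE hEP hEA hG huW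
          (fun y hy => hu2 (Finset.mem_image.mpr ⟨(y, u), hy, rfl⟩)) he hpe
          (fun j hj h => by rw [hex j hj k hkW h hkZ])
    · push Not at hk
      obtain ⟨u, hu⟩ : (W \ H.image Prod.snd).Nonempty := by
        rw [← Finset.card_pos]
        have g1 := Finset.le_card_sdiff (H.image Prod.snd) W
        have g2 : (H.image Prod.snd).card ≤ H.card := Finset.card_image_le
        have g3 := hH.card
        omega
      obtain ⟨huW, hu2⟩ := Finset.mem_sdiff.mp hu
      obtain ⟨e, he, hpe⟩ := hA u Z hZne (hk u huW)
      exact exists_state hH hP (fun y i hy => Or.inr hy) hG huW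
        (fun y hy => hu2 (Finset.mem_image.mpr ⟨(y, u), hy, rfl⟩)) he hpe
        (fun j hj h => absurd h (hk j hj))

end

end ProperArb
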